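import Pool.Agent.Lib.MP_b07157_agYA.Core
import Pool.Agent.Lib.MP_b07157_agYM.SqF
import Pool.Agent.Lib.MP_b07157_agYM.NSN
import Pool.Agent.Lib.MP_b07157_agYM.NSK
import Pool.Agent.Lib.MP_b07157_agYQ.NonExQ

/-!
# Germs whose tangent cone has double points: the theorem in all dimensions
-/

noncomputable section

namespace MPb07157

open MvPolynomial

namespace YM

/-- The condition at `-n/d`. -/
theorem tRoot {t : ℕ} {f : MvPolynomial (Fin (t + 3)) ℂ} {d : ℕ} (hd : 3 ≤ d)
    (hfin : YG.FinSing (homogeneousComponent d f)) (hc : TRoot f d) :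
    d = t + 3 ∨ Lct.HasLct f (((t : ℝ) + 3) / d) ∨
      NonEx (homogeneousComponent d f) (((t : ℂ) + 3) / d) := by
  have hF := homogeneousComponent_isHomogeneous d f
  have hF0 : homogeneousComponent d f ≠ 0 := (FinSing.squarefree (by omega) hfin).ne_zero
  rcases hc with h | ⟨r, hr, h⟩ | h | ⟨h2, h1⟩
  · exact Or.inl h
  · refine Or.inr (Or.inl ⟨r, hr, fun c hc0 hc1 => h c hc0 ?_⟩)
    push_cast
    have e : ((t : ℝ) + 2 + 1) = t + 3 := by ring
    rw [e]
    exact hc1
  · refine Or.inr (Or.inr ?_)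
    push_cast at h
    have e : ((t : ℂ) + 2 + 1) = t + 3 := by ring
    rw [e] at h
    exact h
  · have hNS : NS (homogeneousComponent d f) := by
      rcases h2 with h2 | ⟨h2, h3⟩ | ⟨h2, h3⟩
      · exact h2
      · exact ns_of_double h2 hF hF0 fun q hq hs => h3 q ⟨hq, hs⟩
      · exact ns_of_nodal (by omega) hd hF fun q hq hs => h3 q ⟨hq, hs⟩
    refine Or.inr (Or.inr (YQ.nonEx_of_qh (by omega) hF hF0 hfin (fun q hq hs => ?_) hNS))
    rcases h1 q ⟨hq, hs⟩ with ⟨h5, h6⟩ | ⟨h5, h6⟩ | h5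
    · exact Or.inl (Or.inl ⟨h5, h6⟩)
    · exact Or.inl (Or.inr ⟨h5, h6⟩)
    · exact Or.inr h5

end YM

/-- **Germs whose tangent cone has double points.** -/
theorem SmcLoc.of_tanCone {k : ℕ} {f : MvPolynomial (Fin (k + 1)) ℂ} {d e : ℕ}
    (hf : TanCone f d e) (hc : TRoot f d) : SmcLoc f := by
  obtain ⟨t, rfl⟩ := Nat.exists_eq_add_of_le' hf.hk
  have hd := hf.hd
  have hsq := YM.FinSing.squarefree (by omega) hf.fin
  have hF0 := hsq.ne_zero
  have hf0 : f ≠ 0 := by
    rintro rfl
    exact hF0 (map_zero _)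
  have h00 : coeff 0 f = 0 := by
    have h1 := hf.low 0 (by omega)
    rw [homogeneousComponent_zero] at h1
    exact C_eq_zero.1 h1
  have hroot := YM.tRoot hd hf.fin hc
  rcases Nat.eq_zero_or_pos t with ht | ht
  · subst ht
    have hf2 : YA.IsTC3 f d e := by
      refine ⟨hf.low, hf.mid, hsq, fun q hq hs => ?_⟩
      rcases hf.sing q ⟨hq, hs⟩ with h | ⟨h1, h2⟩ | ⟨_, h⟩
      · exact Or.inr (Or.inl h)
      · refine Or.inr (Or.inr ⟨by omega, ?_⟩)
        by_contra hcon
        push Not at hcon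
        have h3 : YG.hessAt (homogeneousComponent d f) q = 0 := by
          ext i j
          exact hcon i j
        rw [h3, Matrix.rank_zero] at h2
        omega
      · exact Or.inl h
    refine fun _ _ hp _ hb => YA.smc_tc3 (by omega) hf.he hf2 (fun _ => ?_) hp hb
    rcases hroot with h | h | h
    · exact Or.inl h
    · refine Or.inr (Or.inl ?_)
      simpa using h
    · refine Or.inr (Or.inr ?_)
      simpa using h
  · have hfG : YA.IsTCN f d := by
      refine ⟨ht, hd, hf.low, hf.fin, fun q hq hs => ?_⟩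
      rcases hf.sing q ⟨hq, hs⟩ with h | ⟨h1, h2⟩ | ⟨h, _⟩
      · exact Or.inl h
      · exact Or.inr ⟨h1, h2⟩
      · omega
    intro s₀ _ hp b hb
    by_cases hs1 : s₀ = -1
    · subst hs1
      exact neg_one_root hf0 (by rwa [notMem_support_iff]) b hb
    refine YA.smc_tcN hfG (fun hs => ?_) hp hb
    rcases hroot with h | h | h
    · exfalso
      apply hs1
      have h7 : ((t : ℚ) + 3) ≠ 0 := by positivity
      rw [hs, h]
      push_cast
      rw [div_self h7]
    · exact Or.inl h
    · exact Or.inr h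

end MPb07157
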