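import Pool.Agent.Lib.MP_b07157_agYA.Lam
import Pool.Agent.Lib.MP_b07157_agYA.Ps
import Pool.Agent.Lib.MP_b07157_agV.R4
import Pool.Agent.Lib.MP_b07157_agU.Split1

/-!
# The roots of the components of `k`
-/

noncomputable section

namespace MPb07157

open MvPolynomial

namespace YA

open PC SU

namespace AxAux

variable {r : ℕ}

theorem hsI : MvPowerSeries.HasSubst (fun j : Fin 2 =>
    (MvPowerSeries.X (Fin.castLE (by omega) j) : MvPowerSeries (Fin (r + 2)) ℂ)) :=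
  MvPowerSeries.hasSubst_of_constantCoeff_zero fun _ => MvPowerSeries.constantCoeff_X _

/-- `iot` as a homomorphism. -/
def iotH (r : ℕ) : P2 →ₐ[ℂ] MvPowerSeries (Fin (r + 2)) ℂ := MvPowerSeries.substAlgHom hsI

theorem iotH_apply (a : P2) : iotH r a = iot a := by
  unfold iotH iot
  rw [MvPowerSeries.substAlgHom_apply]

theorem iotH_X (j : Fin 2) : iotH r (MvPowerSeries.X j) =
    MvPowerSeries.X (Fin.castLE (by omega) j) := by
  unfold iotH
  rw [MvPowerSeries.substAlgHom_X]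

theorem pd_iot (j : Fin 2) (k : P2) :
    MvPowerSeries.pderiv ℂ (Fin.castLE (by omega) j) (iot k : MvPowerSeries (Fin (r + 2)) ℂ) =
      iot (MvPowerSeries.pderiv ℂ j k) := by
  rw [← iotH_apply, Spl.pderiv_hom, Finset.sum_eq_single j]
  · rw [iotH_X, Spl.pderiv_X, if_pos rfl, one_mul, iotH_apply]
  · intro l _ hl
    rw [iotH_X, Spl.pderiv_X, if_neg, zero_mul]
    intro h
    exact hl (Fin.castLE_injective _ h).symm
  · intro h
    exact absurd (Finset.mem_univ j) h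

theorem pd_iot' (i : Fin r) (k : P2) :
    MvPowerSeries.pderiv ℂ i.succ.succ (iot k : MvPowerSeries (Fin (r + 2)) ℂ) = 0 := by
  rw [← iotH_apply, Spl.pderiv_hom]
  refine Finset.sum_eq_zero fun l _ => ?_
  rw [iotH_X, Spl.pderiv_X, if_neg, zero_mul]
  intro h
  have h1 := congrArg Fin.val h
  simp only [Fin.val_succ, Fin.val_castLE] at h1
  omega

theorem pd_kx (j : Fin 2) (k : P2) :
    MvPowerSeries.pderiv ℂ (Fin.castLE (by omega) j) (kx r k) =
      iot (MvPowerSeries.pderiv ℂ j k) := by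
  unfold kx
  rw [map_add, pd_iot, map_sum, Finset.sum_eq_zero, add_zero]
  intro i _
  rw [Derivation.leibniz_pow, Spl.pderiv_X, if_neg, smul_zero, smul_zero]
  intro h
  have h1 := congrArg Fin.val h
  simp only [Fin.val_succ, Fin.val_castLE] at h1
  omega

theorem pd_kx' (i : Fin r) (k : P2) :
    MvPowerSeries.pderiv ℂ i.succ.succ (kx r k) = 2 * MvPowerSeries.X i.succ.succ := by
  unfold kx
  have e1 : (2 - 1 : ℕ) = 1 := rfl
  rw [map_add, pd_iot', zero_add, map_sum, Finset.sum_eq_single i]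
  · rw [Derivation.leibniz_pow, Spl.pderiv_X, if_pos rfl, e1, pow_one, smul_eq_mul, mul_one,
      nsmul_eq_mul]
    push_cast
    ring
  · intro l _ hl
    rw [Derivation.leibniz_pow, Spl.pderiv_X, if_neg, smul_zero, smul_zero]
    intro h
    exact hl (Fin.succ_injective _ (Fin.succ_injective _ h)).symm
  · intro h
    exact absurd (Finset.mem_univ i) h

theorem cases2 (j : Fin (r + 2)) :
    (∃ l : Fin 2, j = Fin.castLE (by omega) l) ∨ ∃ i : Fin r, j = i.succ.succ := by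
  rcases Nat.lt_or_ge j.val 2 with h | h
  · left
    exact ⟨⟨j.val, h⟩, Fin.ext rfl⟩
  · right
    have h1 := j.2
    refine ⟨⟨j.val - 2, by omega⟩, Fin.ext ?_⟩
    simp only [Fin.val_succ]
    omega

theorem eval_C_derivC {n : ℕ} (i : Fin n) (g : Polynomial (MvPowerSeries (Fin n) ℂ)) (c : ℂ) :
    (derivC i g).eval (MvPowerSeries.C c) =
      MvPowerSeries.pderiv ℂ i (g.eval (MvPowerSeries.C c)) := by
  unfold derivC
  rw [Polynomial.sum_def, Polynomial.eval_finsetSum, Polynomial.eval_eq_sum, Polynomial.sum_def,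
    map_sum]
  refine Finset.sum_congr rfl fun j _ => ?_
  rw [Polynomial.eval_monomial, Derivation.leibniz]
  have h : MvPowerSeries.pderiv ℂ i ((MvPowerSeries.C c : MvPowerSeries (Fin n) ℂ) ^ j) = 0 := by
    rw [← map_pow]
    exact Derivation.map_algebraMap (MvPowerSeries.pderiv ℂ i) (c ^ j)
  rw [h, smul_zero, zero_add, smul_eq_mul, mul_comm]

theorem C_sub {n : ℕ} (s : ℂ) (m : ℕ) : (MvPowerSeries.C (s + 1 - m) : MvPowerSeries (Fin n) ℂ) =
    MvPowerSeries.C s + 1 - (m : MvPowerSeries (Fin n) ℂ) := by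
  rw [map_sub, map_add, map_one, map_natCast]

/-- The computation in the direction `j`. -/
theorem core {κ V : P2} {B : ℕ} (hκ : κ = MvPowerSeries.X 1 ^ B * V) {s : ℂ}
    (hs : 1 + (s + (r : ℂ) / 2) * B = 0)
    {Λ : ℕ → MvPowerSeries (Fin (r + 2)) ℂ →ₗ[ℂ] P2} (hΛ : IsLam κ (s + 1) Λ) {m : ℕ}
    {H F W : MvPowerSeries (Fin (r + 2)) ℂ}
    (hH : ∀ a, (MvPowerSeries.X 1 : P2) ^ (B * m + 1) ∣ MvPowerSeries.X 1 ^ B * Λ m (a * H))
    (hF : F = W * kx r κ) (j : Fin (r + 2)) (a : MvPowerSeries (Fin (r + 2)) ℂ) :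
    (MvPowerSeries.X 1 : P2) ^ (B * (m + 1) + 1) ∣ MvPowerSeries.X 1 ^ B *
      Λ (m + 1) (a * (F * MvPowerSeries.pderiv ℂ j H + (MvPowerSeries.C s + 1 -
        (m : MvPowerSeries (Fin (r + 2)) ℂ)) * MvPowerSeries.pderiv ℂ j F * H)) := by
  have hpr := prime_X2 1
  have e1 : a * (F * MvPowerSeries.pderiv ℂ j H + (MvPowerSeries.C s + 1 -
        (m : MvPowerSeries (Fin (r + 2)) ℂ)) * MvPowerSeries.pderiv ℂ j F * H) =
      (kx r κ * MvPowerSeries.pderiv ℂ j (a * W * H) + MvPowerSeries.C (s + 1 - m) *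
        (MvPowerSeries.pderiv ℂ j (kx r κ) * (a * W * H))) +
      kx r κ * ((MvPowerSeries.C (s + 1 - m) * a * MvPowerSeries.pderiv ℂ j W -
        MvPowerSeries.pderiv ℂ j (a * W)) * H) := by
    rw [C_sub, hF, Derivation.leibniz (MvPowerSeries.pderiv ℂ j) W (kx r κ),
      Derivation.leibniz (MvPowerSeries.pderiv ℂ j) (a * W) H]
    simp only [smul_eq_mul]
    ring
  rw [e1, map_add, hΛ.mul, mul_add ((MvPowerSeries.X 1 : P2) ^ B)]
  refine dvd_add ?_ ?_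
  · rcases cases2 j with ⟨l, rfl⟩ | ⟨i, rfl⟩
    · rw [pd_kx, hΛ.dery]
      obtain ⟨h₁, hh₁⟩ := hH (a * W)
      have hS : (1 : P2) + MvPowerSeries.C (s + (r : ℂ) / 2) * (B : P2) = 0 := by
        have h2 := congrArg (MvPowerSeries.C (σ := Fin 2) (R := ℂ)) hs
        rw [map_add, map_mul, map_one, map_natCast, map_zero] at h2
        exact h2
      have e2 : (MvPowerSeries.C (s + 1 - m + (r : ℂ) / 2) : P2) =
          MvPowerSeries.C (s + (r : ℂ) / 2) + 1 - (m : P2) := by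
        rw [← C_sub]
        congr 1
        ring
      rw [e2]
      have hl : l = 1 ∨ l = 0 := by omega
      rcases hl with rfl | rfl
      · refine ⟨_, Eq.trans ?_ (axis_core (MvPowerSeries.pderiv ℂ 1) hpr.ne_zero
          MvPowerSeries.pderiv_X_self hκ hh₁ hS)⟩
        ring
      · refine ⟨_, Eq.trans ?_ (axis_core' (S := MvPowerSeries.C (s + (r : ℂ) / 2))
          (MvPowerSeries.pderiv ℂ 0) (MvPowerSeries.pderiv_X_of_ne one_ne_zero) hκ hh₁)⟩
        ring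
    · rw [pd_kx', hΛ.derx, mul_zero]
      exact dvd_zero _
  · obtain ⟨c, hc⟩ := hH (MvPowerSeries.C (s + 1 - m) * a * MvPowerSeries.pderiv ℂ j W -
        MvPowerSeries.pderiv ℂ j (a * W))
    refine ⟨V * c, ?_⟩
    have e6 : (MvPowerSeries.X 1 : P2) ^ (B * (m + 1) + 1) =
        MvPowerSeries.X 1 ^ B * MvPowerSeries.X 1 ^ (B * m + 1) := by
      rw [← pow_add]
      congr 1
      ring
    rw [e6, hκ]
    linear_combination (MvPowerSeries.X 1 ^ B * V) * hc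

end AxAux

open AxAux

/-- The orders along the axis `X_1 = 0` of the base. By induction, as `PC.axis_dvd` (`agV/R4.lean`):
the property of `(k, g)` is that `X_1^(B k + 1)` divides `X_1^B Λ_k(a ps(g(s)))` for all `a`.
`raise`, `lower`: `Λ_{k+1}(a ps(f G)) = Λ_{k+1}(kx · a') = k Λ_k(a')`, `a' = iot(θ_0)^d U' a ps(G)`,
and `X_1` is prime and divides neither `θ_0` nor `V`; the unit `U'` belongs to the multipliers.
`deriv`: multiply by `iot(θ_0)^(t+2) iot(jac θ) D'` (`Λ` is linear over the power series in `(u, y)`,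
`X_1 ∤ θ_0`, `X_1 ∤ jac θ`, and `D'` belongs to the multipliers) and use the chain rule; for
`H = ps(G)`, `F = ps(f) = iot(θ_0)^d U' kx`:
`a (F ∂_j H + (s + 1 - k) ∂_j F H) = kx ∂_j(a' H) + (s + 1 - k) (∂_j kx) (a' H) + kx · a'' H` with
`a' = a iot(θ_0)^d U'` and `a''` in the ring; the first two terms are treated by `derx`, `dery`
(`PC.axis_core`, `PC.axis_core'` with `S = s + (t + 1)/2`, for `j = 0, 1`), the last one by `mul`. -/
theorem axis_lam {t : ℕ} {f : MvPowerSeries (Fin (t + 3)) ℂ} {d : ℕ} {θ : Fin 2 → P2} {κ V : P2}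
    (hθ : ¬ MvPowerSeries.X 1 ∣ θ 0) (hJ : ¬ MvPowerSeries.X 1 ∣ jac θ) {B : ℕ} (hB0 : 0 < B)
    (hκ : κ = MvPowerSeries.X 1 ^ B * V) (hV : ¬ MvPowerSeries.X 1 ∣ V)
    {ps : MvPowerSeries (Fin (t + 3)) ℂ →ₐ[ℂ] MvPowerSeries (Fin (t + 1 + 2)) ℂ}
    {U' D' : (MvPowerSeries (Fin (t + 1 + 2)) ℂ)ˣ}
    {A : Fin (t + 3) → Fin (t + 1 + 2) → MvPowerSeries (Fin (t + 1 + 2)) ℂ}
    (hf : ps f = iot (θ 0) ^ d * (kx (t + 1) κ *
      (U' : MvPowerSeries (Fin (t + 1 + 2)) ℂ)))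
    (hA : ∀ l G, iot (θ 0) ^ (t + 2) * iot (jac θ) *
      (D' : MvPowerSeries (Fin (t + 1 + 2)) ℂ) * ps (MvPowerSeries.pderiv ℂ l G) =
      ∑ j, A l j * MvPowerSeries.pderiv ℂ j (ps G)) {s : ℂ}
    (hs : 1 + (s + ((t : ℂ) + 1) / 2) * B = 0)
    {Λ : ℕ → MvPowerSeries (Fin (t + 1 + 2)) ℂ →ₗ[ℂ] P2} (hΛ : IsLam κ (s + 1) Λ) {m : ℕ}
    {g : Polynomial (MvPowerSeries (Fin (t + 3)) ℂ)} (hg : InPs f m g)
    (a : MvPowerSeries (Fin (t + 1 + 2)) ℂ) :
    (MvPowerSeries.X 1 : P2) ^ (B * m + 1) ∣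
      MvPowerSeries.X 1 ^ B * Λ m (a * ps (g.eval (MvPowerSeries.C s))) := by
  have hpr := prime_X2 1
  have hlin : ∀ (m : ℕ) (c : P2) H, Λ m (iotH (t + 1) c * H) = c * Λ m H := by
    intro m c H
    rw [iotH_apply]
    exact hΛ.lin m c H
  have hs' : 1 + (s + ((t + 1 : ℕ) : ℂ) / 2) * B = 0 := by
    push_cast
    exact hs
  have e6 : ∀ m : ℕ, (MvPowerSeries.X 1 : P2) ^ (B * (m + 1) + 1) =
      MvPowerSeries.X 1 ^ B * MvPowerSeries.X 1 ^ (B * m + 1) := by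
    intro m
    rw [← pow_add]
    congr 1
    ring
  induction hg generalizing a with
  | base =>
    rw [mul_zero, zero_add]
    exact (pow_dvd_pow _ hB0).mul_right _
  | add _ _ ih1 ih2 =>
    rw [Polynomial.eval_add, map_add ps, mul_add a, map_add, mul_add]
    exact dvd_add (ih1 a) (ih2 a)
  | mul c _ ih =>
    rw [Polynomial.eval_mul, map_mul ps, ← mul_assoc a]
    exact ih _
  | @raise m g _ ih =>
    rw [Polynomial.eval_mul, Polynomial.eval_C, map_mul ps, hf]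
    have e1 : a * (iot (θ 0) ^ d * (kx (t + 1) κ * (U' : MvPowerSeries (Fin (t + 1 + 2)) ℂ)) *
        ps (g.eval (MvPowerSeries.C s))) = kx (t + 1) κ * ((a * iot (θ 0) ^ d *
          (U' : MvPowerSeries (Fin (t + 1 + 2)) ℂ)) * ps (g.eval (MvPowerSeries.C s))) := by
      ring
    rw [e1, hΛ.mul]
    obtain ⟨c, hc⟩ := ih (a * iot (θ 0) ^ d * (U' : MvPowerSeries (Fin (t + 1 + 2)) ℂ))
    refine ⟨V * c, ?_⟩
    rw [e6, hκ]
    linear_combination (MvPowerSeries.X 1 ^ B * V) * hc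
  | @lower m g _ ih =>
    obtain ⟨c, hc⟩ := ih (a * ((U'⁻¹ : (MvPowerSeries (Fin (t + 1 + 2)) ℂ)ˣ) :
      MvPowerSeries (Fin (t + 1 + 2)) ℂ))
    rw [Polynomial.eval_mul, Polynomial.eval_C, map_mul ps, hf] at hc
    have e0 : ((U'⁻¹ : (MvPowerSeries (Fin (t + 1 + 2)) ℂ)ˣ) :
      MvPowerSeries (Fin (t + 1 + 2)) ℂ) * (U' : MvPowerSeries (Fin (t + 1 + 2)) ℂ) = 1 :=
      Units.inv_mul _
    have e1 : a * ((U'⁻¹ : (MvPowerSeries (Fin (t + 1 + 2)) ℂ)ˣ) :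
        MvPowerSeries (Fin (t + 1 + 2)) ℂ) * (iot (θ 0) ^ d * (kx (t + 1) κ *
          (U' : MvPowerSeries (Fin (t + 1 + 2)) ℂ)) * ps (g.eval (MvPowerSeries.C s))) =
        kx (t + 1) κ * (iotH (t + 1) (θ 0 ^ d) * (a * ps (g.eval (MvPowerSeries.C s)))) := by
      rw [map_pow, iotH_apply]
      linear_combination (a * iot (θ 0) ^ d * kx (t + 1) κ * ps (g.eval (MvPowerSeries.C s))) * e0
    rw [e1, hΛ.mul, hlin, e6] at hc
    have hnd : ¬ (MvPowerSeries.X 1 : P2) ∣ V * θ 0 ^ d := by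
      intro h
      rcases hpr.dvd_or_dvd h with h | h
      · exact hV h
      · exact hθ (hpr.dvd_of_dvd_pow h)
    refine hpr.pow_dvd_of_dvd_mul_left _ hnd ⟨c, ?_⟩
    refine mul_left_cancel₀ (pow_ne_zero B hpr.ne_zero) ?_
    rw [hκ] at hc
    linear_combination hc
  | @deriv m g l _ ih =>
    rw [Polynomial.eval_add, Polynomial.eval_mul, Polynomial.eval_mul, Polynomial.eval_mul,
      Polynomial.eval_C, Polynomial.eval_C, Polynomial.eval_sub, Polynomial.eval_add,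
      Polynomial.eval_X, Polynomial.eval_one, Polynomial.eval_natCast, AxAux.eval_C_derivC]
    obtain ⟨G, hG⟩ : ∃ G, G = g.eval (MvPowerSeries.C s) := ⟨_, rfl⟩
    rw [← hG] at ih ⊢
    obtain ⟨D₁, hD₁⟩ : ∃ D₁ : MvPowerSeries (Fin (t + 1 + 2)) ℂ,
      D₁ = ((D'⁻¹ : (MvPowerSeries (Fin (t + 1 + 2)) ℂ)ˣ) :
        MvPowerSeries (Fin (t + 1 + 2)) ℂ) := ⟨_, rfl⟩
    have e0 : D₁ * (D' : MvPowerSeries (Fin (t + 1 + 2)) ℂ) = 1 := by
      rw [hD₁]
      exact Units.inv_mul _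
    have hps : ps (MvPowerSeries.C s + 1 - (m : MvPowerSeries (Fin (t + 3)) ℂ)) =
        MvPowerSeries.C s + 1 - (m : MvPowerSeries (Fin (t + 1 + 2)) ℂ) := by
      rw [map_sub, map_add, map_one, map_natCast]
      congr 2
      exact ps.commutes s
    have hnd : ¬ (MvPowerSeries.X 1 : P2) ∣ θ 0 ^ (t + 2) * jac θ := by
      intro h
      rcases hpr.dvd_or_dvd h with h | h
      · exact hθ (hpr.dvd_of_dvd_pow h)
      · exact hJ h
    refine hpr.pow_dvd_of_dvd_mul_left _ hnd ?_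
    obtain ⟨E, hE⟩ : ∃ E, E = ps (f * MvPowerSeries.pderiv ℂ l G +
      (MvPowerSeries.C s + 1 - (m : MvPowerSeries (Fin (t + 3)) ℂ)) *
        MvPowerSeries.pderiv ℂ l f * G) := ⟨_, rfl⟩
    rw [← hE]
    have e1 : θ 0 ^ (t + 2) * jac θ * (MvPowerSeries.X 1 ^ B * Λ (m + 1) (a * E)) =
        MvPowerSeries.X 1 ^ B * Λ (m + 1) (iotH (t + 1) (θ 0 ^ (t + 2) * jac θ) * (a * E)) := by
      rw [hlin]
      ring
    have hAG := hA l G
    have hAf := hA l f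
    have e2 : iotH (t + 1) (θ 0 ^ (t + 2) * jac θ) * (a * E) =
        ∑ j, (a * D₁ * A l j) * (ps f * MvPowerSeries.pderiv ℂ j (ps G) +
          (MvPowerSeries.C s + 1 - (m : MvPowerSeries (Fin (t + 1 + 2)) ℂ)) *
            MvPowerSeries.pderiv ℂ j (ps f) * ps G) := by
      have e3 : ∑ j, (a * D₁ * A l j) * (ps f * MvPowerSeries.pderiv ℂ j (ps G) +
          (MvPowerSeries.C s + 1 - (m : MvPowerSeries (Fin (t + 1 + 2)) ℂ)) *
            MvPowerSeries.pderiv ℂ j (ps f) * ps G) =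
          a * D₁ * (ps f * ∑ j, A l j * MvPowerSeries.pderiv ℂ j (ps G) +
            (MvPowerSeries.C s + 1 - (m : MvPowerSeries (Fin (t + 1 + 2)) ℂ)) *
              (∑ j, A l j * MvPowerSeries.pderiv ℂ j (ps f)) * ps G) := by
        rw [Finset.mul_sum, Finset.mul_sum, Finset.sum_mul, ← Finset.sum_add_distrib,
          Finset.mul_sum]
        refine Finset.sum_congr rfl fun j _ => ?_
        ring
      rw [e3, ← hAG, ← hAf, map_mul, map_pow, iotH_apply, iotH_apply, hE, map_add, map_mul,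
        map_mul, map_mul, hps]
      linear_combination (-(a * iot (θ 0) ^ (t + 2) * iot (jac θ) *
        (ps f * ps (MvPowerSeries.pderiv ℂ l G) +
          (MvPowerSeries.C s + 1 - (m : MvPowerSeries (Fin (t + 1 + 2)) ℂ)) *
            ps (MvPowerSeries.pderiv ℂ l f) * ps G))) * e0
    rw [e1, e2, map_sum, Finset.mul_sum]
    refine Finset.dvd_sum fun j _ => ?_
    refine core hκ hs' hΛ ih (W := iot (θ 0) ^ d * (U' : MvPowerSeries (Fin (t + 1 + 2)) ℂ)) ?_ j _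
    rw [hf]
    ring

/-- From `exists_ps`, `exists_Lam` (`σ = s₀ + 1`; `σ ≠ 0` as `s₀ ≠ -1`, `σ < 1`,
`σ + (t + 1)/2 = 1 - 1/B ≥ 0`; if `B = 1`, `σ + (t+1)/2 = 0` is excluded by `hB1`) and `axis_lam`
for `m = 1`, `g = b`, `a = 1`: `X_1^(B+1)` divides `X_1^B b(s₀)`. -/
theorem root_axis {t : ℕ} {f : MvPolynomial (Fin (t + 3)) ℂ} {d : ℕ} {k : P2}
    {ξ : Fin (t + 3) → MvPowerSeries (Fin (t + 3)) ℂ} {U D : MvPowerSeries (Fin (t + 3)) ℂ}
    (hc : YG.IsChartG f d k ξ U D) (hk : MvPowerSeries.constantCoeff k = 0) {θ : Fin 2 → P2}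
    (h0 : ∀ i, MvPowerSeries.constantCoeff (θ i) = 0) (hθ : ¬ MvPowerSeries.X 1 ∣ θ 0)
    (hJ : ¬ MvPowerSeries.X 1 ∣ jac θ) {B : ℕ} (hB1 : 2 ≤ B)
    (hB : ExactPow (MvPowerSeries.subst θ k) 1 B) {s₀ : ℚ} (h1 : s₀ ≠ -1)
    (hs : 1 + (s₀ + ((t : ℚ) + 1) / 2) * B = 0) {b : Polynomial ℂ}
    (hb : InPs (f : MvPowerSeries (Fin (t + 3)) ℂ) 1
      (b.map (MvPowerSeries.C (σ := Fin (t + 3)) (R := ℂ)))) : b.eval (s₀ : ℂ) = 0 := by
  classical
  have hB0 : 0 < B := by omega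
  obtain ⟨ps, U', D', A, hf, hA⟩ := exists_ps hc h0
  obtain ⟨κ, hκd⟩ : ∃ κ : P2, κ = MvPowerSeries.subst θ k := ⟨_, rfl⟩
  rw [← hκd] at hf hB
  have hk' : MvPowerSeries.constantCoeff κ = 0 := by
    rw [hκd]
    exact MvPowerSeries.constantCoeff_subst_eq_zero
      (MvPowerSeries.hasSubst_of_constantCoeff_zero h0) h0 hk
  obtain ⟨⟨V, hV⟩, hB2⟩ := hB
  have hn : ¬ (MvPowerSeries.X 1 : P2) ∣ V := by
    rintro ⟨c, hc'⟩
    apply hB2
    rw [hV, hc']
    exact ⟨c, by ring⟩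
  have hBq : (2 : ℚ) ≤ (B : ℚ) := by exact_mod_cast hB1
  have hBpos : (0 : ℚ) < (B : ℚ) := by linarith
  have htq : (0 : ℚ) ≤ (t : ℚ) := Nat.cast_nonneg t
  have hsB : s₀ + ((t : ℚ) + 1) / 2 = -(1 / (B : ℚ)) := by
    field_simp
    linarith
  have hB3 : 0 < 1 / (B : ℚ) := by positivity
  have hB4 : 1 / (B : ℚ) ≤ 1 / 2 := one_div_le_one_div_of_le two_pos hBq
  have hs0 : ∀ m : ℕ, (s₀ : ℂ) + 1 ≠ m := by
    intro m hm
    have h3 : s₀ + 1 = (m : ℚ) := by exact_mod_cast hm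
    rcases Nat.eq_zero_or_pos m with h4 | h4
    · rw [h4, Nat.cast_zero] at h3
      exact h1 (by linarith)
    · have h5 : (1 : ℚ) ≤ (m : ℚ) := by exact_mod_cast h4
      linarith
  have hs1 : ∀ m : ℕ, (s₀ : ℂ) + 1 + ((t + 1 : ℕ) : ℂ) / 2 ≠ -(m : ℂ) := by
    intro m hm
    have h3 : s₀ + 1 + ((t : ℚ) + 1) / 2 = -(m : ℚ) := by
      have h6 : ((s₀ + 1 + ((t : ℚ) + 1) / 2 : ℚ) : ℂ) = ((-(m : ℚ) : ℚ) : ℂ) := by
        push_cast at hm ⊢
        exact hm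
      exact_mod_cast h6
    have h5 : (0 : ℚ) ≤ (m : ℚ) := Nat.cast_nonneg m
    linarith
  obtain ⟨Λ, hΛ⟩ := exists_Lam (t + 1) hk' hs0 hs1
  have hs' : 1 + ((s₀ : ℂ) + ((t : ℂ) + 1) / 2) * B = 0 := by
    have h3 := congrArg (Rat.cast : ℚ → ℂ) hs
    push_cast at h3
    exact h3
  have h4 := axis_lam hθ hJ hB0 hV hn hf hA hs' hΛ hb 1
  rw [Polynomial.eval_map_apply, mul_one, one_mul] at h4
  have h5 : Λ 1 (ps (MvPowerSeries.C (b.eval (s₀ : ℂ)))) = MvPowerSeries.C (b.eval (s₀ : ℂ)) := by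
    have h6 : ps (MvPowerSeries.C (b.eval (s₀ : ℂ))) =
        iotH (t + 1) (MvPowerSeries.C (b.eval (s₀ : ℂ))) * 1 := by
      rw [mul_one]
      exact (ps.commutes _).trans ((iotH (t + 1)).commutes _).symm
    rw [h6, iotH_apply, hΛ.lin, hΛ.one, mul_one]
  rw [h5, pow_succ] at h4
  have h7 := (mul_dvd_mul_iff_left (pow_ne_zero B (prime_X2 1).ne_zero)).1 h4
  rw [MvPowerSeries.X_dvd_iff] at h7
  have h8 := h7 0 rfl
  rwa [MvPowerSeries.coeff_zero_C] at h8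

end YA

end MPb07157
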