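import Pool.Agent.Lib.MP_b07157_agYA.Axis
import Pool.Agent.Lib.MP_b07157_agYX.Ch2

/-!
# The components of `k` if `s₀` is not a root
-/

noncomputable section

namespace MPb07157

open MvPolynomial

namespace YA

open PC SU

/-- The components of `k` are not a problem if `s₀` is not a root (replaces `YG.axOK2_of_isoG`). -/
theorem axOK2_of_root {t : ℕ} {f : MvPolynomial (Fin (t + 3)) ℂ} {d : ℕ} {k : P2}
    {ξ : Fin (t + 3) → MvPowerSeries (Fin (t + 3)) ℂ} {U D : MvPowerSeries (Fin (t + 3)) ℂ}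
    (hc : YG.IsChartG f d k ξ U D) (hk : MvPowerSeries.constantCoeff k = 0) {s₀ : ℚ}
    (h1 : s₀ ≠ -1) (hs : -1 < s₀ + ((t : ℚ) + 1) / 2) {b : Polynomial ℂ}
    (hb : InPs (f : MvPowerSeries (Fin (t + 3)) ℂ) 1
      (b.map (MvPowerSeries.C (σ := Fin (t + 3)) (R := ℂ)))) (hb0 : b.eval (s₀ : ℂ) ≠ 0) :
    YX.AxOK2 k (s₀ + ((t : ℚ) + 1) / 2) := by
  intro θ h0 hθ hJ B hB0 hB hcon
  refine hb0 (root_axis hc hk h0 hθ hJ ?_ hB h1 (by linarith) hb)
  by_contra hlt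
  have hB1 : B = 1 := by omega
  rw [hB1] at hcon
  push_cast at hcon
  linarith

/-- The charts of `agYX` are those of `agYG` for `t = 0`. -/
theorem isChartG_of_isChart {f : MvPolynomial (Fin 3) ℂ} {d : ℕ} {k : P2}
    {ξ : Fin 3 → MvPowerSeries (Fin 3) ℂ} {U D : MvPowerSeries (Fin 3) ℂ}
    (hc : YX.IsChart f d k 2 ξ U D) : YG.IsChartG (t := 0) f d k ξ U D := by
  have hkz : YX.kz k 2 = YG.kzG 0 k := by
    unfold YX.kz YG.kzG
    rw [Fin.sum_univ_one]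
    rfl
  refine ⟨hc.hU, hc.hD, hc.hξ, ?_, hc.hdet⟩
  rw [← hkz]
  exact hc.hf

end YA

end MPb07157
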