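import Pool.Agent.Lib.MP_b07157_agYG.Defs

/-!
# The components of `k` which are not exceptional: definitions

No hypothesis on the singularities of `f` outside the origin is needed in the theorems on the tangent
cone: if `s₀ + (t + 1)/2 = -1/B` for a component of multiplicity `B` of `k`, then `s₀` is a root.
-/

noncomputable section

namespace MPb07157

open MvPolynomial

namespace YA

open PC SU

variable {r : ℕ}

/-- The inclusion of the power series in `(u, y)` in those in `(u, y, x_1, …, x_r)`. -/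
def iot (a : P2) : MvPowerSeries (Fin (r + 2)) ℂ :=
  MvPowerSeries.subst (fun j : Fin 2 =>
    (MvPowerSeries.X (Fin.castLE (by omega) j) : MvPowerSeries (Fin (r + 2)) ℂ)) a

/-- The power series `k(u, y) + ∑ x_i²`. -/
def kx (r : ℕ) (k : P2) : MvPowerSeries (Fin (r + 2)) ℂ :=
  iot k + ∑ i : Fin r, MvPowerSeries.X i.succ.succ ^ 2

/-- Functionals `Λ_m(H) = ∫ H (k + ∑ x_i²)^(σ - m) dx / k^(σ - m + r/2)`, with values in the power
series in `(u, y)`. -/
structure IsLam (k : P2) (σ : ℂ) (Λ : ℕ → MvPowerSeries (Fin (r + 2)) ℂ →ₗ[ℂ] P2) : Prop where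
  lin : ∀ m (c : P2) H, Λ m (iot c * H) = c * Λ m H
  mul : ∀ m H, Λ (m + 1) (kx r k * H) = k * Λ m H
  derx : ∀ m H (i : Fin r), Λ (m + 1) (kx r k * MvPowerSeries.pderiv ℂ i.succ.succ H +
    MvPowerSeries.C (σ - m) * (2 * MvPowerSeries.X i.succ.succ * H)) = 0
  dery : ∀ m H (j : Fin 2), Λ (m + 1) (kx r k *
      MvPowerSeries.pderiv ℂ (Fin.castLE (by omega) j) H +
      MvPowerSeries.C (σ - m) * (iot (MvPowerSeries.pderiv ℂ j k) * H)) =
    k * MvPowerSeries.pderiv ℂ j (Λ m H) +
      MvPowerSeries.C (σ - m + (r : ℂ) / 2) * (MvPowerSeries.pderiv ℂ j k * Λ m H)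
  one : Λ 1 1 = 1

end YA

end MPb07157
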