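import Pool.Agent.Lib.MP_b07157_agYX.K2

/-!
# The zeta function of `x^d (y² + ∑ x_i²)`
-/

noncomputable section

namespace MPb07157

open MvPolynomial

namespace YA

open PC SU

namespace Sqaux

/-- The support of `y²`. -/
theorem supp {v : Fin 2 →₀ ℕ}
    (hv : MvPowerSeries.coeff v (MvPowerSeries.X 1 ^ 2 : P2) ≠ 0) : v 0 = 0 ∧ v 1 = 2 := by
  classical
  rw [MvPowerSeries.coeff_X_pow] at hv
  by_cases h1 : v = Finsupp.single 1 2
  · rw [h1, Finsupp.single_eq_same, Finsupp.single_eq_of_ne (by decide)]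
    exact ⟨rfl, rfl⟩
  · rw [if_neg h1] at hv
    exact absurd rfl hv

theorem coeff_y : MvPowerSeries.coeff (Finsupp.single 1 2) (MvPowerSeries.X 1 ^ 2 : P2) ≠ 0 := by
  classical
  rw [MvPowerSeries.coeff_X_pow, if_pos rfl]
  exact one_ne_zero

/-- There is no edge. -/
theorem no_edge {p q A B : ℕ} {lam : ℂ} {R : Finset ℂ} {μ : ℂ → ℕ}
    (hE : IsEdge (MvPowerSeries.X 1 ^ 2 : P2) p q A B lam R μ) : False := by
  classical
  obtain ⟨hP0, hPN, hcoef⟩ := hE.init
  have hp := hE.hp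
  have hq := hE.hq
  have hS := Finset.sum_pos hE.hm hE.hR
  obtain ⟨k1, k2, -⟩ := edgeP_support hp hq (A := A) (B := B) hE.hlam hE.hR0 μ
  rw [← hcoef _ (hPN _ (mem_support_iff.2 k1)).le] at k1
  rw [← hcoef _ (hPN _ (mem_support_iff.2 k2)).le] at k2
  have hpS : 0 < p * ∑ c ∈ R, μ c := Nat.mul_pos hp hS
  have hqS : 0 < q * ∑ c ∈ R, μ c := Nat.mul_pos hq hS
  have l1 := supp k1
  have l2 := supp k2
  rw [VM.ex_zero, VM.ex_one] at l1 l2
  omega

end Sqaux

open Sqaux in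
/-- From `YX.ZX_mem_of_edges`, as `YG.ZX_node_mem` (`agYG/NodeS.lean`): the power series `X_1²` has no
edges; the axis `y = 0` has `B = 2`. -/
theorem ZX_sq_mem {t d : ℕ} (hd : 0 < d) {s₀ : ℚ} (h1 : s₀ ≠ -1)
    (h : ((t : ℚ) + 3) + d * s₀ ≠ 0) (h2 : (t : ℚ) + 2 + 2 * s₀ ≠ 0) {K : ℕ} (hK : 1 ≤ K)
    (hKs : -s₀ < K) :
    YX.ZX (MvPowerSeries.X 1 ^ 2 : P2) (fun _ : Fin (t + 1) => 2) (t + 3) d 0 K ∈
      regularAt s₀ := by
  classical
  have hhn : hn (fun _ : Fin (t + 1) => 2) = ((t : ℚ) + 1) / 2 := by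
    unfold hn
    rw [Finset.sum_const, Finset.card_univ, Fintype.card_fin, nsmul_eq_mul]
    push_cast
    ring
  have hF : (MvPowerSeries.X 1 ^ 2 : P2) ≠ 0 := by
    intro h0
    have h3 := coeff_y
    rw [h0] at h3
    exact h3 (map_zero _)
  refine YX.ZX_mem_of_edges hF (fun _ => by norm_num) (by omega) hd ⟨?_, ?_⟩ ?_ h1 hK hKs ?_ ?_
    ?_ ?_
  · rw [pow_zero]
    exact one_dvd _
  · intro h3
    rw [MvPowerSeries.X_pow_dvd_iff] at h3
    refine coeff_y (h3 _ ?_)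
    rw [Finsupp.single_eq_of_ne (by decide)]
    omega
  · intro v hv
    refine ⟨Nat.zero_le _, ?_⟩
    rintro rfl
    have h3 := supp hv
    rw [VM.ex_zero, VM.ex_one] at h3
    omega
  · rw [Nat.cast_zero, zero_mul, add_zero]
    push_cast
    exact h
  · intro B hB hB0 hB1
    have hB2 : B ≤ 2 := by
      by_contra hlt
      have h3 := hB.1
      rw [MvPowerSeries.X_pow_dvd_iff] at h3
      refine coeff_y (h3 _ ?_)
      rw [Finsupp.single_eq_same]
      omega
    have hB3 : ¬ B < 2 := by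
      intro hlt
      exact hB.2 (pow_dvd_pow _ (by omega))
    have hBe : B = 2 := by omega
    subst hBe
    apply h2
    rw [hhn] at hB1
    push_cast at hB1
    linarith
  · intro p q A B lam R μ hE
    exact (no_edge hE).elim
  · intro p q A B lam R μ hE
    exact (no_edge hE).elim

end YA

end MPb07157
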