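import Pool.Agent.Lib.MP_b07157_agYA.AxR
import Pool.Agent.Lib.MP_b07157_agYA.Sq
import Pool.Agent.Lib.MP_b07157_agYG.MainG
import Pool.Agent.Lib.MP_b07157_agYX.Main2

/-!
# Tangent cones with double points: the main theorems without hypothesis outside the tangent cone
-/

noncomputable section

namespace MPb07157

open MvPolynomial

namespace YA

open PC SU SI YL

/-! ### Three variables -/

/-- `f = f_d + f_{d+e} + f_{d+e+1} + ⋯`, `f_d` is squarefree, and at each singular point `q` of the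
curve `f_d = 0`: `f_{d+e}(q) ≠ 0`; or `q` is a node; or `d ≤ 6` and `q` is a double point. -/
structure IsTC3 (f : MvPolynomial (Fin 3) ℂ) (d e : ℕ) : Prop where
  low : ∀ j < d, homogeneousComponent j f = 0
  mid : ∀ j, 0 < j → j < e → homogeneousComponent (d + j) f = 0
  sqf : Squarefree (homogeneousComponent d f)
  sing : ∀ q : Fin 3 → ℂ, q ≠ 0 → (∀ j, eval q (pderiv j (homogeneousComponent d f)) = 0) →
    eval q (homogeneousComponent (d + e) f) ≠ 0 ∨ NodeAt (homogeneousComponent d f) q ∨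
      (d ≤ 6 ∧ ∃ i j, eval q (pderiv i (pderiv j (homogeneousComponent d f))) ≠ 0)

theorem cc_of_yOrd {k : P2} {M : ℕ} (hM1 : 1 ≤ M) (hM : YOrd k 0 M) :
    MvPowerSeries.constantCoeff k = 0 := by
  have h := hM.2.1 0 hM1
  have e1 : PC.ex 0 0 = 0 := by
    rw [PC.ex, Finsupp.single_zero, Finsupp.single_zero, add_zero]
  rwa [e1, MvPowerSeries.coeff_zero_eq_constantCoeff_apply] at h

theorem not_X1_dvd_one : ¬ (MvPowerSeries.X 1 : P2) ∣ 1 := by
  intro h
  rw [MvPowerSeries.X_dvd_iff] at h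
  have h1 := h 0 rfl
  rw [MvPowerSeries.coeff_zero_eq_constantCoeff_apply, map_one] at h1
  exact one_ne_zero h1

theorem not_X1_dvd_X0 : ¬ (MvPowerSeries.X 1 : P2) ∣ MvPowerSeries.X 0 := by
  intro h
  rw [MvPowerSeries.X_dvd_iff] at h
  have h1 := h (Finsupp.single 0 1) (by rw [Finsupp.single_eq_of_ne (by decide)])
  rw [MvPowerSeries.coeff_index_single_self_X] at h1
  exact one_ne_zero h1

theorem jac_X : jac (MvPowerSeries.X : Fin 2 → P2) = 1 := by
  unfold jac
  rw [MvPowerSeries.pderiv_X_self, MvPowerSeries.pderiv_X_self,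
    MvPowerSeries.pderiv_X_of_ne (by decide), MvPowerSeries.pderiv_X_of_ne (by decide)]
  ring

theorem exactPow_sq : ExactPow (MvPowerSeries.subst (MvPowerSeries.X : Fin 2 → P2)
    (MvPowerSeries.X 1 ^ 2 : P2)) 1 2 := by
  have h : (MvPowerSeries.subst (MvPowerSeries.X : Fin 2 → P2) (MvPowerSeries.X 1 ^ 2 : P2) : P2) =
      MvPowerSeries.X 1 ^ 2 := by
    have := MvPowerSeries.subst_self (σ := Fin 2) (R := ℂ)
    exact congrFun this _
  rw [h]
  refine ⟨dvd_rfl, fun hd => ?_⟩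
  obtain ⟨c, hc⟩ := hd
  rw [pow_succ (MvPowerSeries.X 1 : P2) 2, mul_assoc] at hc
  have h2 : (1 : P2) = MvPowerSeries.X 1 * c := by
    refine mul_left_cancel₀ (pow_ne_zero 2 (prime_X2 1).ne_zero) ?_
    rw [mul_one]
    exact hc
  exact not_X1_dvd_one ⟨c, h2⟩

/-- The double points which are not nodes. -/
theorem double_case {f : MvPolynomial (Fin 3) ℂ} {d : ℕ} (hd : 0 < d) (hd6 : d ≤ 6)
    (hlow : ∀ j < d, homogeneousComponent j f = 0)
    (hsq : Squarefree (homogeneousComponent d f)) {q : Fin 3 → ℂ} {j₀ : Fin 3} (hq : q j₀ = 1)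
    (h0 : eval q (homogeneousComponent d f) = 0)
    (hs : ∀ j, eval q (pderiv j (homogeneousComponent d f)) = 0)
    (hh : hess2 (gch (homogeneousComponent d f) q j₀ : P2) = 0) {i j : Fin 3}
    (hij : eval q (pderiv i (pderiv j (homogeneousComponent d f))) ≠ 0) {s₀ : ℚ}
    (h : ((3 : ℕ) : ℚ) / d ≠ -s₀) (h1 : s₀ ≠ -1) (hreg : lineSer f d q ∉ regularAt s₀)
    {b : Polynomial ℂ} (hb : InPs (f : MvPowerSeries (Fin 3) ℂ) 1
      (b.map (MvPowerSeries.C (σ := Fin 3) (R := ℂ)))) : b.eval (s₀ : ℂ) = 0 := by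
  have hd3 : 3 ≤ d :=
    YX.three_le (homogeneousComponent_isHomogeneous d f) hsq hq hs hh h0
  have hdQ : (0 : ℚ) < d := by exact_mod_cast hd
  have hd3Q : (3 : ℚ) ≤ d := by exact_mod_cast hd3
  have hd6Q : (d : ℚ) ≤ 6 := by exact_mod_cast hd6
  obtain ⟨k, hk0, hk⟩ := YX.exists_ueq2_hg hq h0 hs hij
  obtain ⟨M, hM1, hM⟩ := YX.exists_yOrd hq hsq hk0 hk
  obtain ⟨K, hK⟩ := exists_nat_gt (-s₀)
  have hK1 : 1 ≤ K + 1 := by omega
  have hK2 : -s₀ < ((K + 1 : ℕ) : ℚ) := by
    push_cast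
    linarith
  rw [YX.lineSer_eq_ZX hd hq hk hK1] at hreg
  have he : ∀ l : Fin 1, 0 < (fun _ : Fin 1 => 2) l := fun _ => two_pos
  have h3 : (3 : ℚ) + d * s₀ ≠ 0 := by
    intro h3
    apply h
    rw [div_eq_iff hdQ.ne']
    push_cast
    linarith
  by_contra hb0
  apply hreg
  rcases lt_or_ge s₀ (-1) with hs1 | hs1
  · refine YX.out_neg he ?_ h1 hK1 hK2 M k 3 d 0 (by omega) (by omega) hM hM1 ?_
    · rw [YX.hn_two]
      linarith
    · push_cast
      nlinarith
  rcases le_or_gt (-(1 / 2)) s₀ with hs2 | hs2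
  · refine YX.out_pos he ?_ h1 hK1 hK2 M k 3 d 0 (by omega) (by omega) hM hM1 ?_
    · rw [YX.hn_two]
      linarith
    · push_cast
      have h4 : 0 ≤ (3 : ℚ) + d * s₀ := by nlinarith
      rw [zero_mul, add_zero]
      exact lt_of_le_of_ne h4 (Ne.symm h3)
  have hs1' : -1 < s₀ := lt_of_le_of_ne hs1 (Ne.symm h1)
  obtain ⟨ξ, U, D, hc⟩ := YX.exists_chart hlow hk
  have hex := YX.ex2_of_root hc hs1' (by linarith) hb hb0
  have hax : YX.AxOK2 k (s₀ + hn (fun _ : Fin 1 => 2)) := by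
    have hax' := axOK2_of_root (isChartG_of_isChart hc) (cc_of_yOrd hM1 hM) h1
      (by push_cast; linarith) hb hb0
    rw [YX.hn_two]
    rwa [Nat.cast_zero, zero_add] at hax'
  have key := YX.later2 (g := k) he (s₀ := s₀) (by rw [YX.hn_two]; linarith) (D := d) (b := 3)
    (by omega) (by omega) (by
      rw [YX.hn_two]
      have e1 : (((3 : ℕ) : ℚ) - 1 + d * s₀) = 2 + d * s₀ := by
        push_cast
        ring
      rw [e1]
      exact hex) hax h1 hK1 hK2 M MvPowerSeries.X k 1 1 0 (YX.isStg_id k) hM hM1 (by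
      rw [YX.hn_two]
      push_cast
      rcases Nat.lt_or_ge d 4 with hd4 | hd4
      · right
        have hdeq : d = 3 := by omega
        subst hdeq
        have hM4 := YX.yOrd_le_four hq h0 hs hij hsq hk hM
        have hM4Q : (M : ℚ) ≤ 4 := by exact_mod_cast hM4
        have hM1Q : (1 : ℚ) ≤ M := by exact_mod_cast hM1
        nlinarith
      · left
        have hd4Q : (4 : ℚ) ≤ d := by exact_mod_cast hd4
        nlinarith) (by
      rw [YX.hn_two]
      push_cast
      intro h5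
      apply h3
      linarith)
  have e2 : (1 + (3 - 1) * 1 : ℕ) = 3 := rfl
  rw [e2, mul_one] at key
  exact key

/-- **Surface germs with reduced tangent cones, double points.** -/
theorem smc_tc3 {f : MvPolynomial (Fin 3) ℂ} {d e : ℕ} (hd : 0 < d) (he : 0 < e)
    (hf : IsTC3 f d e) {s₀ : ℚ} (hlct : s₀ = -(3 / (d : ℚ)) → d = 3 ∨ Cond3 f d)
    (hp : IsPole (Zmot0 f) s₀) {b : Polynomial ℂ}
    (hb : InDnForm f 1 (b.map (MvPowerSeries.C (σ := Fin 3) (R := ℂ)))) :
    b.eval (s₀ : ℂ) = 0 := by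
  have hF0 : homogeneousComponent d f ≠ 0 := hf.sqf.ne_zero
  have hf0 : f ≠ 0 := by
    rintro rfl
    exact hF0 (map_zero _)
  have h00 : coeff 0 f = 0 := by
    have h1 := hf.low 0 hd
    rw [homogeneousComponent_zero] at h1
    exact C_eq_zero.1 h1
  by_cases hs1 : s₀ = -1
  · subst hs1
    exact neg_one_root hf0 (by rwa [notMem_support_iff]) b hb
  have hdQ : (0 : ℚ) < d := by exact_mod_cast hd
  have heQ : (0 : ℚ) < e := by exact_mod_cast he
  by_cases hs2 : s₀ = -(3 / (d : ℚ))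
  · rcases hlct hs2 with hd3 | hc | hc
    · exfalso
      apply hs1
      rw [hs2, hd3]
      norm_num
    · have h1 := Lct.root_order hd (by norm_num) hf0 hf.low (by exact_mod_cast hc) hb
      rw [hs2]
      exact_mod_cast h1
    · have h1 := SI.root_of_nonEx hd hf.low hF0 hc hb
      rw [hs2]
      push_cast
      exact h1
  have hcand : ((3 : ℕ) : ℚ) / d ≠ -s₀ := by
    intro h
    apply hs2
    push_cast at h
    rw [← neg_eq_iff_eq_neg, ← h]
  -- the singular point
  obtain ⟨q, j₀, hq, hsing, hFq, hreg⟩ := exists_pole_line hd hf.low hf.sqf hcand hs1 hp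
  have hq0 : q ≠ 0 := by
    rintro rfl
    simp at hq
  have hd2 : 2 ≤ d := by
    by_contra hcon
    have hd1 : d = 1 := by omega
    subst hd1
    exact hF0 (eq_zero_of_linear (homogeneousComponent_isHomogeneous 1 f) hsing)
  have hbps := inPs_of_form hb
  by_cases hh : hess2 (gch (homogeneousComponent d f) q j₀ : PC.P2) = 0
  swap
  · exact root_or_regular_node hd2 hf.low hq hFq hsing hh hcand hs1 hreg hbps
  rcases hf.sing q hq0 hsing with hne | h | ⟨hd6, i, j, hij⟩
  · have hnode : ¬ PC.IsNode (gch (homogeneousComponent d f) q j₀ : PC.P2) := fun h =>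
      hess2_of_isNode h hh
    have hiso := isoSing_gch (homogeneousComponent_isHomogeneous d f) hf.sqf hq
    have hg0 := ne_zero_of_isoSing hiso
    have hc : eval 0 (gch (homogeneousComponent d f) q j₀) = 0 := by
      rw [pole_eval_gch _ q j₀ hq]
      exact hFq
    have hc' : MvPowerSeries.constantCoeff
        ((gch (homogeneousComponent d f) q j₀ : MvPolynomial (Fin 2) ℂ) : PC.P2) = 0 := by
      rw [← MvPowerSeries.coeff_zero_eq_constantCoeff_apply, MvPolynomial.coeff_coe,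
        ← MvPolynomial.constantCoeff_eq, ← hc, MvPolynomial.eval_zero]
    obtain ⟨K, hK⟩ := exists_nat_gt (-s₀)
    have hK1 : 1 ≤ K + 1 := by omega
    have hK2 : -s₀ < ((K + 1 : ℕ) : ℚ) := by
      push_cast
      linarith
    rw [lineSer_eq_ZY hd he hf.mid hq hne hK1] at hreg
    set s₁ : ℚ := (((d : ℚ) + e) * s₀ + 3) / e with hs₁
    have hP : YP.Par e d 3 s₀ s₁ := by
      refine ⟨he, hd, by norm_num, ?_, hs1, ?_⟩
      · rw [hs₁, mul_div_cancel₀ _ heQ.ne']
        push_cast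
        ring
      · intro h
        apply hcand
        rw [div_eq_iff hdQ.ne']
        exact h
    by_cases hout : s₁ ≤ -1 ∨ 0 ≤ s₁
    · exact absurd (YP.first_out hg0 hc' hnode hP hout hK1 hK2) hreg
    push Not at hout
    obtain ⟨h1, h2⟩ := hout
    by_contra hb0
    have hex := ex_gch_e hd2 he hf.low hf.mid hq hne hs1 h1 h2 hbps hb0
    exact hreg (YP.first hg0 hc' hP hex
      (fun θ h0 i B hJ hB0 hB => PC.axis_ne hiso h0 hJ hB0 hB h1.ne') hK1 hK2)
  · exact absurd hh (hess2_of_nodeAt (homogeneousComponent_isHomogeneous d f) hq hsing h)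
  · exact double_case hd hd6 hf.low hf.sqf hq hFq hsing hh hij hcand hs1 hreg hbps

/-! ### At least four variables -/

/-- The projective hypersurface `f_d = 0` has finitely many singular points, and each of them is a
node or, if `(n - 2) d ≤ 2 n`, a point of corank one; `n = t + 3 ≥ 4`, and `f` has multiplicity
`d ≥ 3`. -/
structure IsTCN {t : ℕ} (f : MvPolynomial (Fin (t + 3)) ℂ) (d : ℕ) : Prop where
  ht : 1 ≤ t
  hd : 3 ≤ d
  low : ∀ j < d, homogeneousComponent j f = 0
  fin : YG.FinSing (homogeneousComponent d f)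
  sing : ∀ q : Fin (t + 3) → ℂ, q ≠ 0 →
    (∀ j, eval q (pderiv j (homogeneousComponent d f)) = 0) →
    (YG.hessAt (homogeneousComponent d f) q).rank = t + 2 ∨
      ((t + 1) * d ≤ 2 * (t + 3) ∧ t + 1 ≤ (YG.hessAt (homogeneousComponent d f) q).rank)

variable {t : ℕ} {f : MvPolynomial (Fin (t + 3)) ℂ} {d : ℕ} {q : Fin (t + 3) → ℂ}
  {j₀ : Fin (t + 3)}

/-- The points of corank one. -/
theorem corank_case (ht : 1 ≤ t) (hd : 3 ≤ d) (hd6 : (t + 1) * d ≤ 2 * (t + 3))
    (hlow : ∀ j < d, homogeneousComponent j f = 0)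
    (hfin : YG.FinSing (homogeneousComponent d f)) (hq : q j₀ = 1)
    (h0 : eval q (homogeneousComponent d f) = 0)
    (hs : ∀ j, eval q (pderiv j (homogeneousComponent d f)) = 0)
    (hr : t + 1 ≤ (YG.hessAt (homogeneousComponent d f) q).rank) {s₀ : ℚ}
    (h : ((t : ℚ) + 3) + d * s₀ ≠ 0) (h1 : s₀ ≠ -1) (hreg : YG.lineSer f d q ∉ regularAt s₀)
    {b : Polynomial ℂ} (hb : InPs (f : MvPowerSeries (Fin (t + 3)) ℂ) 1
      (b.map (MvPowerSeries.C (σ := Fin (t + 3)) (R := ℂ)))) : b.eval (s₀ : ℂ) = 0 := by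
  have htQ : (1 : ℚ) ≤ t := by exact_mod_cast ht
  have hd3Q : (3 : ℚ) ≤ d := by exact_mod_cast hd
  have hd6Q : ((t : ℚ) + 1) * d ≤ 2 * (t + 3) := by exact_mod_cast hd6
  obtain ⟨k, hk0, hk⟩ := YG.exists_ueqG_hg hq h0 hs hr
  obtain ⟨M, hM1, hM⟩ := YG.exists_yOrdG (by omega) hq hfin hk0 hk
  obtain ⟨K, hK⟩ := exists_nat_gt (-s₀)
  have hK1 : 1 ≤ K + 1 := by omega
  have hK2 : -s₀ < ((K + 1 : ℕ) : ℚ) := by
    push_cast
    linarith
  rw [YG.lineSer_eq_ZX (by omega) hq hk hK1] at hreg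
  have he : ∀ l : Fin (t + 1), 0 < (fun _ : Fin (t + 1) => 2) l := fun _ => two_pos
  by_contra hb0
  apply hreg
  set s : ℚ := s₀ + ((t : ℚ) + 1) / 2 with hsdef
  have hs₀ : s₀ = s - ((t : ℚ) + 1) / 2 := by rw [hsdef]; ring
  rcases lt_or_ge s (-(1 / 2)) with hs1 | hs1
  · refine YX.out_neg he ?_ h1 hK1 hK2 M k (t + 3) d 0 (by omega) (by omega) hM hM1 ?_
    · rw [YG.hn_twoG]
      exact hs1
    · push_cast
      rw [zero_mul, add_zero, hs₀]
      nlinarith
  rcases le_or_gt 0 s with hs2 | hs2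
  · refine YX.out_pos he ?_ h1 hK1 hK2 M k (t + 3) d 0 (by omega) (by omega) hM hM1 ?_
    · rw [YG.hn_twoG]
      exact hs2
    · push_cast
      rw [zero_mul, add_zero]
      refine lt_of_le_of_ne ?_ (Ne.symm h)
      rw [hs₀]
      nlinarith
  obtain ⟨ξ, U, D, hc⟩ := YG.exists_chartG hlow hk
  have hex := YG.ex2_of_rootG hc (by linarith) hs2 hb hb0
  have hax : YX.AxOK2 k (s₀ + hn (fun _ : Fin (t + 1) => 2)) := by
    have hax' := axOK2_of_root hc (cc_of_yOrd hM1 hM) h1 (by linarith) hb hb0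
    rw [YG.hn_twoG]
    exact hax'
  have key := YX.later2 (g := k) he (s₀ := s₀) (by rw [YG.hn_twoG]; exact hs2) (D := d) (b := t + 3)
    (by omega) (by omega) (by
      rw [YG.hn_twoG]
      have e1 : (((t + 3 : ℕ) : ℚ) - 1 + d * s₀) = (t : ℚ) + 2 + d * s₀ := by
        push_cast
        ring
      rw [e1]
      exact hex) hax h1 hK1 hK2 M MvPowerSeries.X k 1 1 0 (YX.isStg_id k) hM hM1 (by
      left
      rw [YG.hn_twoG]
      push_cast
      rw [hs₀]
      nlinarith) (by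
      rw [YG.hn_twoG]
      push_cast
      intro h5
      apply h
      linarith)
  have e2 : (1 + (t + 3 - 1) * 1 : ℕ) = t + 3 := by omega
  rw [e2, mul_one] at key
  exact key

/-- The nodes. -/
theorem node_case (hd : 3 ≤ d)
    (hlow : ∀ j < d, homogeneousComponent j f = 0) (hq : q j₀ = 1)
    (h0 : eval q (homogeneousComponent d f) = 0)
    (hs : ∀ j, eval q (pderiv j (homogeneousComponent d f)) = 0)
    (hr : (YG.hessAt (homogeneousComponent d f) q).rank = t + 2) {s₀ : ℚ}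
    (h : ((t : ℚ) + 3) + d * s₀ ≠ 0) (h1 : s₀ ≠ -1) (hreg : YG.lineSer f d q ∉ regularAt s₀)
    {b : Polynomial ℂ} (hb : InPs (f : MvPowerSeries (Fin (t + 3)) ℂ) 1
      (b.map (MvPowerSeries.C (σ := Fin (t + 3)) (R := ℂ)))) : b.eval (s₀ : ℂ) = 0 := by
  obtain ⟨K, hK⟩ := exists_nat_gt (-s₀)
  have hK1 : 1 ≤ K + 1 := by omega
  have hK2 : -s₀ < ((K + 1 : ℕ) : ℚ) := by
    push_cast
    linarith
  rcases YG.exists_ueqG_hg_node hq h0 hs hr with hk | ⟨κ, hκ, hk⟩
  · obtain ⟨ξ, U, D, hc⟩ := YG.exists_chartG hlow hk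
    by_contra hb0
    by_cases h2 : (t : ℚ) + 2 + 2 * s₀ = 0
    · refine hb0 (root_axis hc ?_ (θ := MvPowerSeries.X) (fun i => MvPowerSeries.constantCoeff_X i)
        ?_ ?_ le_rfl ?_ h1 ?_ hb)
      · rw [map_pow, MvPowerSeries.constantCoeff_X, zero_pow two_ne_zero]
      · exact not_X1_dvd_X0
      · rw [jac_X]
        exact not_X1_dvd_one
      · exact exactPow_sq
      · push_cast
        linarith
    · apply hreg
      rw [YG.lineSer_eq_ZX (by omega) hq hk hK1]
      exact ZX_sq_mem (by omega) h1 h h2 hK1 hK2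
  · obtain ⟨ξ, U, D, hc⟩ := YG.exists_chartG hlow hk
    have hr := YG.root_nodeG hd hκ hc hb
    by_cases h2 : 2 * ((t : ℚ) + 3) + ((t : ℚ) + 2) * κ + s₀ * (2 * ((d : ℚ) + κ)) = 0
    · have hpos : (0 : ℚ) < 2 * ((d : ℚ) + κ) := by positivity
      have h5 : s₀ = -((2 * ((t : ℚ) + 3) + ((t : ℚ) + 2) * κ) / (2 * ((d : ℚ) + κ))) := by
        rw [← neg_div, eq_div_iff hpos.ne']
        linarith
      rw [← hr, h5]
      push_cast
      rfl
    · refine absurd ?_ hreg
      rw [YG.lineSer_eq_ZX (by omega) hq hk hK1]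
      exact YG.ZX_node_mem (by omega) hκ h1 h h2 hK1 hK2

/-- **Hypersurface germs whose tangent cone has nodes or points of corank one.** -/
theorem smc_tcN (hf : IsTCN f d) {s₀ : ℚ}
    (hlct : s₀ = -(((t : ℚ) + 3) / d) → Lct.HasLct f (((t : ℝ) + 3) / d) ∨
      NonEx (homogeneousComponent d f) (((t : ℂ) + 3) / d))
    (hp : IsPole (Zmot0 f) s₀) {b : Polynomial ℂ}
    (hb : InDnForm f 1 (b.map (MvPowerSeries.C (σ := Fin (t + 3)) (R := ℂ)))) :
    b.eval (s₀ : ℂ) = 0 := by
  have hd := hf.hd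
  have hdQ : (0 : ℚ) < d := by exact_mod_cast (by omega : 0 < d)
  have hF0 : homogeneousComponent d f ≠ 0 := by
    intro h0
    have h2 : YG.hessAt (homogeneousComponent d f) (fun _ => (1 : ℂ)) = 0 := by
      ext i j
      show eval _ (pderiv i (pderiv j (homogeneousComponent d f))) = 0
      rw [h0, map_zero, map_zero, map_zero]
    have h3 := hf.sing (fun _ => 1) (fun h => one_ne_zero (congrFun h 0)) (fun j => by
      rw [h0, map_zero, map_zero])
    rw [h2, Matrix.rank_zero] at h3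
    omega
  have hf0 : f ≠ 0 := by
    rintro rfl
    exact hF0 (map_zero _)
  have h00 : coeff 0 f = 0 := by
    have h1 := hf.low 0 (by omega)
    rw [homogeneousComponent_zero] at h1
    exact C_eq_zero.1 h1
  by_cases hs1 : s₀ = -1
  · subst hs1
    exact neg_one_root hf0 (by rwa [notMem_support_iff]) b hb
  by_cases hs2 : s₀ = -(((t : ℚ) + 3) / d)
  · rcases hlct hs2 with hc | hc
    · have h1 := Lct.root_order (n := t + 3) (by omega : 0 < d) (by omega) hf0 hf.low
        (by push_cast; exact hc) hb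
      rw [hs2]
      exact_mod_cast h1
    · have h1 := YG.root_of_nonExG (n := t + 3) (by omega) (by omega : 2 ≤ d) hf.low hF0
        (by push_cast; exact hc) hb
      rw [hs2]
      push_cast at h1 ⊢
      exact h1
  have hcand : ((t + 2 + 1 : ℕ) : ℚ) / d ≠ -s₀ := by
    intro h
    apply hs2
    rw [← neg_eq_iff_eq_neg, ← h]
    push_cast
    ring
  have hcand' : ((t : ℚ) + 3) + d * s₀ ≠ 0 := by
    intro h
    apply hs2
    rw [← neg_div, eq_div_iff hdQ.ne']
    linarith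
  obtain ⟨q, j₀, hq, hsing, hFq, hreg⟩ := YG.exists_pole_line (by omega) hf.low hf.fin hcand hs1 hp
  have hq0 : q ≠ 0 := by
    rintro rfl
    simp at hq
  have hbps := inPs_of_form hb
  rcases hf.sing q hq0 hsing with h | ⟨hd6, h⟩
  · exact node_case hd hf.low hq hFq hsing h hcand' hs1 hreg hbps
  · exact corank_case hf.ht hd hd6 hf.low hf.fin hq hFq hsing h hcand' hs1 hreg hbps

end YA

end MPb07157
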