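import Pool.Agent.Lib.MP_b07157_agYA.Defs
import Pool.Agent.Lib.MP_b07157_agYG.LamA

/-!
# The integration over the variables `x_i`
-/

noncomputable section

namespace MPb07157

open MvPolynomial

namespace YA

open PC SU

namespace LamX

/-- Continuous linear maps. -/
def Bd {n p : ℕ} (L : MvPowerSeries (Fin n) ℂ →ₗ[ℂ] MvPowerSeries (Fin p) ℂ) : Prop :=
  ∀ e, ∃ M : ℕ, ∀ H, (∀ m, Finsupp.degree m ≤ M → MvPowerSeries.coeff m H = 0) →
    MvPowerSeries.coeff e (L H) = 0

/-- The exponents of degree at most `M`. -/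
def SS (n M : ℕ) : Finset (Fin n →₀ ℕ) := (Finsupp.finite_of_degree_le (σ := Fin n) M).toFinset

variable {n p q : ℕ}

theorem mem_SS {M : ℕ} {m : Fin n →₀ ℕ} : m ∈ SS n M ↔ Finsupp.degree m ≤ M := by
  unfold SS
  rw [Set.Finite.mem_toFinset]
  rfl

theorem Bd.zero {L : MvPowerSeries (Fin n) ℂ →ₗ[ℂ] MvPowerSeries (Fin p) ℂ} (hL : Bd L)
    (h : ∀ m, L (MvPowerSeries.monomial m 1) = 0) (H : MvPowerSeries (Fin n) ℂ) : L H = 0 := by
  classical
  ext e
  obtain ⟨M, hM⟩ := hL e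
  have h1 : L H = L (H - ∑ m ∈ SS n M, MvPowerSeries.coeff m H •
      (MvPowerSeries.monomial m 1 : MvPowerSeries (Fin n) ℂ)) := by
    rw [map_sub, map_sum]
    have h2 : ∀ m ∈ SS n M, L (MvPowerSeries.coeff m H •
        (MvPowerSeries.monomial m 1 : MvPowerSeries (Fin n) ℂ)) = 0 := by
      intro m _
      rw [map_smul, h m, smul_zero]
    rw [Finset.sum_eq_zero h2, sub_zero]
  rw [h1, map_zero]
  refine hM _ fun m hm => ?_
  rw [map_sub, map_sum, Finset.sum_eq_single m]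
  · rw [map_smul, MvPowerSeries.coeff_monomial_same, smul_eq_mul, mul_one, sub_self]
  · intro b _ hb
    rw [map_smul, MvPowerSeries.coeff_monomial_ne hb.symm, smul_zero]
  · intro hm'
    exact absurd (mem_SS.2 hm) hm'

theorem Bd.comp {L₂ : MvPowerSeries (Fin p) ℂ →ₗ[ℂ] MvPowerSeries (Fin q) ℂ}
    {L₁ : MvPowerSeries (Fin n) ℂ →ₗ[ℂ] MvPowerSeries (Fin p) ℂ} (h₂ : Bd L₂) (h₁ : Bd L₁) :
    Bd (L₂ ∘ₗ L₁) := by
  intro e
  obtain ⟨M₂, hM₂⟩ := h₂ e
  choose M₁ hM₁ using h₁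
  refine ⟨(SS p M₂).sup M₁, fun H hH => ?_⟩
  rw [LinearMap.comp_apply]
  refine hM₂ _ fun m hm => hM₁ m H fun m' hm' => hH m' (hm'.trans ?_)
  exact Finset.le_sup (f := M₁) (mem_SS.2 hm)

theorem Bd.add {L₁ L₂ : MvPowerSeries (Fin n) ℂ →ₗ[ℂ] MvPowerSeries (Fin p) ℂ} (h₁ : Bd L₁)
    (h₂ : Bd L₂) : Bd (L₁ + L₂) := by
  intro e
  obtain ⟨M₁, hM₁⟩ := h₁ e
  obtain ⟨M₂, hM₂⟩ := h₂ e
  refine ⟨max M₁ M₂, fun H hH => ?_⟩
  rw [LinearMap.add_apply, map_add, hM₁ H fun m hm => hH m (hm.trans (le_max_left _ _)),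
    hM₂ H fun m hm => hH m (hm.trans (le_max_right _ _)), add_zero]

theorem Bd.sub {L₁ L₂ : MvPowerSeries (Fin n) ℂ →ₗ[ℂ] MvPowerSeries (Fin p) ℂ} (h₁ : Bd L₁)
    (h₂ : Bd L₂) : Bd (L₁ - L₂) := by
  intro e
  obtain ⟨M₁, hM₁⟩ := h₁ e
  obtain ⟨M₂, hM₂⟩ := h₂ e
  refine ⟨max M₁ M₂, fun H hH => ?_⟩
  rw [LinearMap.sub_apply, map_sub, hM₁ H fun m hm => hH m (hm.trans (le_max_left _ _)),
    hM₂ H fun m hm => hH m (hm.trans (le_max_right _ _)), sub_zero]

theorem bd_mul (G : MvPowerSeries (Fin n) ℂ) : Bd (LinearMap.mulLeft ℂ G) := by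
  classical
  intro e
  refine ⟨Finsupp.degree e, fun H hH => ?_⟩
  rw [LinearMap.mulLeft_apply, MvPowerSeries.coeff_mul]
  refine Finset.sum_eq_zero fun x hx => ?_
  rw [Finset.HasAntidiagonal.mem_antidiagonal] at hx
  rw [hH x.2, mul_zero]
  rw [← hx, map_add]
  exact Nat.le_add_left _ _

theorem bd_pd (i : Fin n) : Bd ((MvPowerSeries.pderiv ℂ i).toLinearMap :
    MvPowerSeries (Fin n) ℂ →ₗ[ℂ] MvPowerSeries (Fin n) ℂ) := by
  intro e
  refine ⟨Finsupp.degree e + 1, fun H hH => ?_⟩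
  have h1 : MvPowerSeries.coeff e (MvPowerSeries.pderiv ℂ i H) = 0 := by
    rw [MvPowerSeries.coeff_pderiv, hH, zero_mul]
    rw [map_add, Finsupp.degree_single]
  exact h1

/-- The linear map with given values at the monomials. -/
def exl (v : (Fin n →₀ ℕ) → MvPowerSeries (Fin p) ℂ) :
    MvPowerSeries (Fin n) ℂ →ₗ[ℂ] MvPowerSeries (Fin p) ℂ where
  toFun H := fun e => ∑ m ∈ SS n (2 * Finsupp.degree e + 1),
    MvPowerSeries.coeff m H * MvPowerSeries.coeff e (v m)
  map_add' H H' := by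
    funext e
    change ∑ m ∈ SS n (2 * Finsupp.degree e + 1),
      MvPowerSeries.coeff m (H + H') * MvPowerSeries.coeff e (v m) =
      ∑ m ∈ SS n (2 * Finsupp.degree e + 1),
        MvPowerSeries.coeff m H * MvPowerSeries.coeff e (v m) +
      ∑ m ∈ SS n (2 * Finsupp.degree e + 1),
        MvPowerSeries.coeff m H' * MvPowerSeries.coeff e (v m)
    rw [← Finset.sum_add_distrib]
    refine Finset.sum_congr rfl fun m _ => ?_
    rw [map_add, add_mul]
  map_smul' c H := by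
    funext e
    change ∑ m ∈ SS n (2 * Finsupp.degree e + 1),
      MvPowerSeries.coeff m (c • H) * MvPowerSeries.coeff e (v m) =
      c * ∑ m ∈ SS n (2 * Finsupp.degree e + 1),
        MvPowerSeries.coeff m H * MvPowerSeries.coeff e (v m)
    rw [Finset.mul_sum]
    refine Finset.sum_congr rfl fun m _ => ?_
    rw [map_smul, smul_eq_mul, mul_assoc]

theorem coeff_exl (v : (Fin n →₀ ℕ) → MvPowerSeries (Fin p) ℂ) (H : MvPowerSeries (Fin n) ℂ)
    (e : Fin p →₀ ℕ) : MvPowerSeries.coeff e (exl v H) =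
      ∑ m ∈ SS n (2 * Finsupp.degree e + 1),
        MvPowerSeries.coeff m H * MvPowerSeries.coeff e (v m) := rfl

theorem bd_exl (v : (Fin n →₀ ℕ) → MvPowerSeries (Fin p) ℂ) : Bd (exl v) := by
  intro e
  refine ⟨2 * Finsupp.degree e + 1, fun H hH => ?_⟩
  rw [coeff_exl]
  refine Finset.sum_eq_zero fun m hm => ?_
  rw [hH m (mem_SS.1 hm), zero_mul]

theorem exl_monomial {v : (Fin n →₀ ℕ) → MvPowerSeries (Fin p) ℂ}
    (hv : ∀ m e, 2 * Finsupp.degree e + 1 < Finsupp.degree m → MvPowerSeries.coeff e (v m) = 0)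
    (m : Fin n →₀ ℕ) : exl v (MvPowerSeries.monomial m 1) = v m := by
  classical
  ext e
  rw [coeff_exl]
  by_cases hm : m ∈ SS n (2 * Finsupp.degree e + 1)
  · rw [Finset.sum_eq_single m]
    · rw [MvPowerSeries.coeff_monomial_same, one_mul]
    · intro b _ hb
      rw [MvPowerSeries.coeff_monomial_ne hb, zero_mul]
    · intro hm'
      exact absurd hm hm'
  · rw [Finset.sum_eq_zero]
    · refine (hv m e ?_).symm
      by_contra hcon
      exact hm (mem_SS.2 (not_lt.1 hcon))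
    · intro b hb
      rw [MvPowerSeries.coeff_monomial_ne, zero_mul]
      rintro rfl
      exact hm hb

/-- The derivative of a monomial. -/
theorem pd_monomial (i : Fin n) (m : Fin n →₀ ℕ) :
    MvPowerSeries.pderiv ℂ i (MvPowerSeries.monomial m (1 : ℂ)) =
      (m i : ℂ) • MvPowerSeries.monomial (m - Finsupp.single i 1) (1 : ℂ) := by
  classical
  ext e
  rw [MvPowerSeries.coeff_pderiv, map_smul, MvPowerSeries.coeff_monomial,
    MvPowerSeries.coeff_monomial, smul_eq_mul]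
  by_cases h : e + Finsupp.single i 1 = m
  · have h1 : e = m - Finsupp.single i 1 := by rw [← h, add_tsub_cancel_right]
    have h2 : m i = e i + 1 := by rw [← h, Finsupp.add_apply, Finsupp.single_eq_same]
    rw [if_pos h, if_pos h1, h2]
    push_cast
    ring
  · rw [if_neg h, zero_mul]
    by_cases h1 : e = m - Finsupp.single i 1
    · have h2 : m i = 0 := by
        by_contra h3
        apply h
        rw [h1]
        exact tsub_add_cancel_of_le (Finsupp.single_le_iff.2 (by omega))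
      rw [h2, Nat.cast_zero, zero_mul]
    · rw [if_neg h1, mul_zero]

variable {r : ℕ}

/-- The exponents of `u`, `y`. -/
def ev (m : Fin (r + 2) →₀ ℕ) : Fin 2 →₀ ℕ :=
  Finsupp.equivFunOnFinite.symm fun j => m (Fin.castLE (by omega) j)

/-- The exponents of the `x_i`. -/
def ax (m : Fin (r + 2) →₀ ℕ) : Fin r →₀ ℕ :=
  Finsupp.equivFunOnFinite.symm fun i => m i.succ.succ

theorem ev_apply (m : Fin (r + 2) →₀ ℕ) (j : Fin 2) : ev m j = m (Fin.castLE (by omega) j) := rfl

theorem ax_apply (m : Fin (r + 2) →₀ ℕ) (i : Fin r) : ax m i = m i.succ.succ := rfl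

theorem ev_add (m m' : Fin (r + 2) →₀ ℕ) : ev (m + m') = ev m + ev m' := by
  ext j
  rw [Finsupp.add_apply, ev_apply, ev_apply, ev_apply, Finsupp.add_apply]

theorem ax_add (m m' : Fin (r + 2) →₀ ℕ) : ax (m + m') = ax m + ax m' := by
  ext j
  rw [Finsupp.add_apply, ax_apply, ax_apply, ax_apply, Finsupp.add_apply]

theorem ev_sub (m m' : Fin (r + 2) →₀ ℕ) : ev (m - m') = ev m - ev m' := by
  ext j
  rw [Finsupp.tsub_apply, ev_apply, ev_apply, ev_apply, Finsupp.tsub_apply]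

theorem ax_sub (m m' : Fin (r + 2) →₀ ℕ) : ax (m - m') = ax m - ax m' := by
  ext j
  rw [Finsupp.tsub_apply, ax_apply, ax_apply, ax_apply, Finsupp.tsub_apply]

theorem ne_cs (j : Fin 2) (i : Fin r) : (Fin.castLE (by omega) j : Fin (r + 2)) ≠ i.succ.succ := by
  intro h
  have h1 := congrArg Fin.val h
  simp only [Fin.val_succ, Fin.val_castLE] at h1
  omega

theorem ev_single (j : Fin 2) (a : ℕ) :
    ev (Finsupp.single (Fin.castLE (by omega) j : Fin (r + 2)) a) = Finsupp.single j a := by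
  classical
  ext l
  rw [ev_apply, Finsupp.single_apply, Finsupp.single_apply]
  by_cases h : j = l
  · rw [if_pos h, if_pos (by rw [h])]
  · rw [if_neg h, if_neg fun h' => h (Fin.castLE_injective _ h')]

theorem ax_single (i : Fin r) (a : ℕ) :
    ax (Finsupp.single (i.succ.succ : Fin (r + 2)) a) = Finsupp.single i a := by
  classical
  ext l
  rw [ax_apply, Finsupp.single_apply, Finsupp.single_apply]
  by_cases h : i = l
  · rw [if_pos h, if_pos (by rw [h])]
  · rw [if_neg h, if_neg fun h' => h (Fin.succ_injective _ (Fin.succ_injective _ h'))]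

theorem ev_single' (i : Fin r) (a : ℕ) :
    ev (Finsupp.single (i.succ.succ : Fin (r + 2)) a) = 0 := by
  classical
  ext l
  rw [ev_apply, Finsupp.single_apply, if_neg (ne_cs l i).symm]
  rfl

theorem ax_single' (j : Fin 2) (a : ℕ) :
    ax (Finsupp.single (Fin.castLE (by omega) j : Fin (r + 2)) a) = 0 := by
  classical
  ext l
  rw [ax_apply, Finsupp.single_apply, if_neg (ne_cs j l)]
  rfl

theorem degree_eq (m : Fin (r + 2) →₀ ℕ) :
    Finsupp.degree m = Finsupp.degree (ev m) + YG.LamAaux.dg (ax m) := by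
  unfold YG.LamAaux.dg
  rw [Finsupp.degree_eq_sum, Finsupp.degree_eq_sum, Fin.sum_univ_succ, Fin.sum_univ_succ,
    Fin.sum_univ_two, ← add_assoc]
  rfl

theorem hsI : MvPowerSeries.HasSubst (fun j : Fin 2 =>
    (MvPowerSeries.X (Fin.castLE (by omega) j) : MvPowerSeries (Fin (r + 2)) ℂ)) :=
  MvPowerSeries.hasSubst_of_constantCoeff_zero fun _ => MvPowerSeries.constantCoeff_X _

/-- `iot` as a linear map. -/
def iotL (r : ℕ) : P2 →ₗ[ℂ] MvPowerSeries (Fin (r + 2)) ℂ :=
  (MvPowerSeries.substAlgHom hsI : P2 →ₐ[ℂ] MvPowerSeries (Fin (r + 2)) ℂ).toLinearMap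

theorem iotL_apply (a : P2) : iotL r a = iot a := by
  unfold iotL iot
  rw [AlgHom.toLinearMap_apply, MvPowerSeries.substAlgHom_apply]

theorem bd_iot (r : ℕ) : Bd (iotL r) := by
  intro e
  refine ⟨Finsupp.degree e, fun H hH => ?_⟩
  rw [iotL_apply]
  apply MvPowerSeries.coeff_of_lt_order
  have h1 : ((Finsupp.degree e + 1 : ℕ) : ℕ∞) ≤ H.order :=
    MvPowerSeries.nat_le_order fun d hd => hH d (by omega)
  have h2 := MvPowerSeries.le_order_subst (hsI (r := r)) H
  have h3 : (1 : ℕ∞) ≤ ⨅ j : Fin 2, (MvPowerSeries.X (Fin.castLE (by omega) j) :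
      MvPowerSeries (Fin (r + 2)) ℂ).order := by
    refine le_iInf fun j => ?_
    rw [MvPowerSeries.one_le_order_iff_constCoeff_eq_zero]
    exact MvPowerSeries.constantCoeff_X _
  have h4 : H.order ≤ (iot H : MvPowerSeries (Fin (r + 2)) ℂ).order :=
    (le_trans (le_of_eq (one_mul _).symm) (mul_le_mul_left h3 _)).trans h2
  refine lt_of_lt_of_le ?_ (h1.trans h4)
  exact_mod_cast Nat.lt_succ_self _

theorem iot_monomial (e : Fin 2 →₀ ℕ) :
    (iot (MvPowerSeries.monomial e 1) : MvPowerSeries (Fin (r + 2)) ℂ) =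
      MvPowerSeries.monomial (Finsupp.single (Fin.castLE (by omega) (0 : Fin 2)) (e 0) +
        Finsupp.single (Fin.castLE (by omega) (1 : Fin 2)) (e 1)) 1 := by
  unfold iot
  rw [MvPowerSeries.subst_monomial hsI, map_one, one_mul, Finsupp.prod_fintype _ _
    (fun _ => pow_zero _), Fin.prod_univ_two, MvPowerSeries.X_pow_eq, MvPowerSeries.X_pow_eq,
    MvPowerSeries.monomial_mul_monomial, one_mul]

open YG.LamAaux in
theorem gg_three {s : ℂ} (hs0 : ∀ m : ℕ, s ≠ m)
    (hs1 : ∀ m : ℕ, s + (r : ℂ) / 2 ≠ -((m : ℂ) + 1)) (a : Fin r →₀ ℕ) (b : ℕ) :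
    (s - b) * gg s a (b + 1) = (((dg a / 2 : ℕ) : ℂ) + (s - b) + (r : ℂ) / 2) * gg s a b := by
  unfold gg
  generalize dg a / 2 = n
  have h6 : (((b + 1 : ℕ) : ℤ) - (n : ℤ)) = ((b : ℤ) - (n : ℤ)) + 1 := by
    push_cast
    ring
  rw [h6, cc_succ hs1, ← hh_succ hs0 b]
  push_cast
  ring

/-- The values at the monomials. -/
def vv (c : ℂ) (k : P2) (s : ℂ) (b : ℕ) (m : Fin (r + 2) →₀ ℕ) : P2 :=
  (c * YG.LamAaux.gg s (ax m) b) •
    (k ^ (YG.LamAaux.dg (ax m) / 2) * MvPowerSeries.monomial (ev m) 1)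

theorem vv_coeff {k : P2} (hk : MvPowerSeries.constantCoeff k = 0) (c s : ℂ) (b : ℕ)
    (m : Fin (r + 2) →₀ ℕ) (e : Fin 2 →₀ ℕ)
    (h : 2 * Finsupp.degree e + 1 < Finsupp.degree m) :
    MvPowerSeries.coeff e (vv c k s b m) = 0 := by
  unfold vv
  rw [map_smul, MvPowerSeries.coeff_mul_monomial]
  by_cases h1 : ev m ≤ e
  · rw [if_pos h1, MvPowerSeries.coeff_of_lt_order, zero_mul, smul_zero]
    refine lt_of_lt_of_le ?_ (MvPowerSeries.le_order_pow_of_constantCoeff_eq_zero _ hk)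
    have h2 : Finsupp.degree (e - ev m) + Finsupp.degree (ev m) = Finsupp.degree e := by
      rw [← map_add, tsub_add_cancel_of_le h1]
    rw [degree_eq m] at h
    have h3 : Finsupp.degree (e - ev m) < YG.LamAaux.dg (ax m) / 2 := by omega
    exact_mod_cast h3
  · rw [if_neg h1, smul_zero]

theorem vv_x {k : P2} (c s : ℂ) (b : ℕ) (m : Fin (r + 2) →₀ ℕ) (i : Fin r) :
    vv c k s b (m + Finsupp.single i.succ.succ 2) =
      (c * YG.LamAaux.gg s (ax m + Finsupp.single i 2) b) •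
    (k ^ (YG.LamAaux.dg (ax m) / 2 + 1) * MvPowerSeries.monomial (ev m) 1) := by
  unfold vv
  rw [ax_add, ev_add, ax_single, ev_single', add_zero, YG.LamAaux.dg_add]
  congr 3
  omega

section

variable {k : P2} (hk : MvPowerSeries.constantCoeff k = 0) {c s : ℂ} {b : ℕ}

include hk

theorem lam_mono (m : Fin (r + 2) →₀ ℕ) :
    exl (vv c k s b) (MvPowerSeries.monomial m 1) = vv c k s b m :=
  exl_monomial (fun m e h => vv_coeff hk c s b m e h) m

theorem lam_lin (a : P2) (H : MvPowerSeries (Fin (r + 2)) ℂ) :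
    exl (vv c k s b) (iot a * H) = a * exl (vv c k s b) H := by
  have h1 : ∀ (m : Fin (r + 2) →₀ ℕ) (a : P2),
      exl (vv c k s b) (iot a * MvPowerSeries.monomial m 1) = a * vv c k s b m := by
    intro m a
    have h2 : Bd ((exl (vv c k s b) ∘ₗ LinearMap.mulLeft ℂ
        (MvPowerSeries.monomial m 1 : MvPowerSeries (Fin (r + 2)) ℂ)) ∘ₗ iotL r -
        LinearMap.mulLeft ℂ (vv c k s b m)) :=
      (((bd_exl _).comp (bd_mul _)).comp (bd_iot r)).sub (bd_mul _)
    have h3 := h2.zero (fun e => ?_) a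
    · rw [LinearMap.sub_apply, LinearMap.comp_apply, LinearMap.comp_apply, iotL_apply,
        LinearMap.mulLeft_apply, LinearMap.mulLeft_apply, sub_eq_zero] at h3
      rw [mul_comm (iot a), h3, mul_comm]
    · rw [LinearMap.sub_apply, LinearMap.comp_apply, LinearMap.comp_apply, iotL_apply,
        LinearMap.mulLeft_apply, LinearMap.mulLeft_apply, iot_monomial,
        MvPowerSeries.monomial_mul_monomial, one_mul, lam_mono hk, sub_eq_zero]
      unfold vv
      rw [ax_add, ax_add, ev_add, ev_add, ax_single', ax_single', ev_single, ev_single, add_zero,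
        add_zero, smul_mul_assoc, mul_assoc, MvPowerSeries.monomial_mul_monomial, one_mul]
      have e1 : Finsupp.single (0 : Fin 2) (e 0) + Finsupp.single (1 : Fin 2) (e 1) = e := by
        ext l
        fin_cases l
        · simp
        · simp
      rw [e1]
  have h2 : Bd (exl (vv c k s b) ∘ₗ LinearMap.mulLeft ℂ (iot a : MvPowerSeries (Fin (r + 2)) ℂ) -
      LinearMap.mulLeft ℂ a ∘ₗ exl (vv c k s b)) :=
    ((bd_exl _).comp (bd_mul _)).sub ((bd_mul _).comp (bd_exl _))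
  have h3 := h2.zero (fun m => ?_) H
  · rw [LinearMap.sub_apply, LinearMap.comp_apply, LinearMap.comp_apply,
      LinearMap.mulLeft_apply, LinearMap.mulLeft_apply, sub_eq_zero] at h3
    exact h3
  · rw [LinearMap.sub_apply, LinearMap.comp_apply, LinearMap.comp_apply,
      LinearMap.mulLeft_apply, LinearMap.mulLeft_apply, sub_eq_zero, h1, lam_mono hk]

theorem lam_mul (hs0 : ∀ m : ℕ, s ≠ m) (hs1 : ∀ m : ℕ, s + (r : ℂ) / 2 ≠ -((m : ℂ) + 1))
    (H : MvPowerSeries (Fin (r + 2)) ℂ) :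
    exl (vv c k s (b + 1)) (kx r k * H) = k * exl (vv c k s b) H := by
  have h2 : Bd (exl (vv c k s (b + 1)) ∘ₗ LinearMap.mulLeft ℂ (kx r k) -
      LinearMap.mulLeft ℂ k ∘ₗ exl (vv c k s b)) :=
    ((bd_exl _).comp (bd_mul _)).sub ((bd_mul _).comp (bd_exl _))
  have h3 := h2.zero (fun m => ?_) H
  · rw [LinearMap.sub_apply, LinearMap.comp_apply, LinearMap.comp_apply,
      LinearMap.mulLeft_apply, LinearMap.mulLeft_apply, sub_eq_zero] at h3
    exact h3
  · rw [LinearMap.sub_apply, LinearMap.comp_apply, LinearMap.comp_apply,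
      LinearMap.mulLeft_apply, LinearMap.mulLeft_apply, sub_eq_zero, lam_mono hk]
    unfold kx
    rw [add_mul, map_add, lam_lin hk, lam_mono hk, Finset.sum_mul, map_sum]
    have h4 : ∀ i : Fin r, exl (vv c k s (b + 1))
        (MvPowerSeries.X i.succ.succ ^ 2 * MvPowerSeries.monomial m 1) =
        (c * YG.LamAaux.gg s (ax m + Finsupp.single i 2) (b + 1)) •
        (k * (k ^ (YG.LamAaux.dg (ax m) / 2) * MvPowerSeries.monomial (ev m) 1)) := by
      intro i
      rw [MvPowerSeries.X_pow_eq, MvPowerSeries.monomial_mul_monomial, one_mul, lam_mono hk,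
        add_comm (Finsupp.single (i.succ.succ : Fin (r + 2)) 2) m, vv_x, pow_succ', mul_assoc]
    rw [Finset.sum_congr rfl fun i _ => h4 i, ← Finset.sum_smul, ← Finset.mul_sum]
    unfold vv
    rw [mul_smul_comm, mul_smul_comm, ← add_smul, ← mul_add, YG.LamAaux.gg_one hs0 hs1]

theorem lam_derx (hs0 : ∀ m : ℕ, s ≠ m) (hs1 : ∀ m : ℕ, s + (r : ℂ) / 2 ≠ -((m : ℂ) + 1))
    (i : Fin r) (H : MvPowerSeries (Fin (r + 2)) ℂ) :
    exl (vv c k s (b + 1)) (kx r k * MvPowerSeries.pderiv ℂ i.succ.succ H +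
      MvPowerSeries.C (s - b) * (2 * MvPowerSeries.X i.succ.succ * H)) = 0 := by
  have h2 : Bd ((exl (vv c k s (b + 1)) ∘ₗ LinearMap.mulLeft ℂ (kx r k)) ∘ₗ
      (MvPowerSeries.pderiv ℂ i.succ.succ).toLinearMap + exl (vv c k s (b + 1)) ∘ₗ
      LinearMap.mulLeft ℂ (MvPowerSeries.C (s - b) * (2 * MvPowerSeries.X i.succ.succ))) :=
    (((bd_exl _).comp (bd_mul _)).comp (bd_pd _)).add ((bd_exl _).comp (bd_mul _))
  have h3 := h2.zero (fun m => ?_) H
  · rw [LinearMap.add_apply, LinearMap.comp_apply, LinearMap.comp_apply, LinearMap.comp_apply,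
      LinearMap.mulLeft_apply, LinearMap.mulLeft_apply] at h3
    rw [map_add, ← mul_assoc]
    exact h3
  · rw [LinearMap.add_apply, LinearMap.comp_apply, LinearMap.comp_apply, LinearMap.comp_apply,
      LinearMap.mulLeft_apply, LinearMap.mulLeft_apply, lam_mul hk hs0 hs1]
    have e1 : ((MvPowerSeries.pderiv ℂ (i.succ.succ : Fin (r + 2))).toLinearMap
        (MvPowerSeries.monomial m (1 : ℂ)) : MvPowerSeries (Fin (r + 2)) ℂ) =
        (m i.succ.succ : ℂ) • MvPowerSeries.monomial (m - Finsupp.single i.succ.succ 1) (1 : ℂ) :=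
      pd_monomial _ _
    have e2 : MvPowerSeries.C (s - b) * (2 * MvPowerSeries.X i.succ.succ) *
        (MvPowerSeries.monomial m (1 : ℂ) : MvPowerSeries (Fin (r + 2)) ℂ) =
        (2 * (s - b)) • MvPowerSeries.monomial (m + Finsupp.single i.succ.succ 1) (1 : ℂ) := by
      rw [MvPowerSeries.smul_eq_C_mul, map_mul, map_ofNat, MvPowerSeries.X,
        ← one_mul (1 : ℂ), ← MvPowerSeries.monomial_mul_monomial, one_mul]
      ring
    rw [e1, e2, map_smul, map_smul, lam_mono hk, lam_mono hk]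
    rcases Nat.eq_zero_or_pos (m i.succ.succ) with h0 | h0
    · have h5 := YG.LamAaux.gg_two hs0 (ax m) b i
      rw [ax_apply, h0, Nat.cast_zero, zero_mul, zero_add] at h5
      rw [h0, Nat.cast_zero, zero_smul, mul_zero, zero_add]
      unfold vv
      rw [ax_add, ax_single, smul_smul]
      have e3 : 2 * (s - b) * (c * YG.LamAaux.gg s (ax m + Finsupp.single i 1) (b + 1)) = 0 := by
        linear_combination c * h5
      rw [e3, zero_smul]
    · obtain ⟨m', rfl⟩ : ∃ m', m = m' + Finsupp.single i.succ.succ 1 :=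
        ⟨m - Finsupp.single i.succ.succ 1,
          (tsub_add_cancel_of_le (Finsupp.single_le_iff.2 (by omega))).symm⟩
      have e5 : m' + Finsupp.single (i.succ.succ : Fin (r + 2)) 1 +
          Finsupp.single (i.succ.succ : Fin (r + 2)) 1 =
          m' + Finsupp.single (i.succ.succ : Fin (r + 2)) 2 :=
        (add_assoc _ _ _).trans (congrArg (m' + ·) (Finsupp.single_add _ 1 1).symm)
      have e6 : ax m' + Finsupp.single i 1 + Finsupp.single i 1 =
          ax m' + Finsupp.single i 2 := by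
        rw [add_assoc, ← Finsupp.single_add]
      have h5 := YG.LamAaux.gg_two hs0 (ax (m' + Finsupp.single i.succ.succ 1)) b i
      rw [ax_apply, ax_add, ax_single, add_tsub_cancel_right, e6] at h5
      rw [add_tsub_cancel_right, e5, vv_x]
      unfold vv
      rw [mul_smul_comm, mul_smul_comm, smul_smul, smul_smul, pow_succ', mul_assoc k, ← add_smul]
      have e3 : (((m' + Finsupp.single (i.succ.succ : Fin (r + 2)) 1 : Fin (r + 2) →₀ ℕ)
          i.succ.succ : ℕ) : ℂ) *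
          (c * YG.LamAaux.gg s (ax m') b) +
          2 * (s - b) * (c * YG.LamAaux.gg s (ax m' + Finsupp.single i 2) (b + 1)) = 0 := by
        linear_combination c * h5
      rw [e3, zero_smul]

theorem lam_dery (hs0 : ∀ m : ℕ, s ≠ m) (hs1 : ∀ m : ℕ, s + (r : ℂ) / 2 ≠ -((m : ℂ) + 1))
    (j : Fin 2) (H : MvPowerSeries (Fin (r + 2)) ℂ) :
    exl (vv c k s (b + 1)) (kx r k *
      MvPowerSeries.pderiv ℂ (Fin.castLE (by omega) j) H +
      MvPowerSeries.C (s - b) * (iot (MvPowerSeries.pderiv ℂ j k) * H)) =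
    k * MvPowerSeries.pderiv ℂ j (exl (vv c k s b) H) +
      MvPowerSeries.C (s - b + (r : ℂ) / 2) *
        (MvPowerSeries.pderiv ℂ j k * exl (vv c k s b) H) := by
  have h2 : Bd (((exl (vv c k s (b + 1)) ∘ₗ LinearMap.mulLeft ℂ (kx r k)) ∘ₗ
      (MvPowerSeries.pderiv ℂ (Fin.castLE (by omega) j)).toLinearMap + exl (vv c k s (b + 1)) ∘ₗ
      LinearMap.mulLeft ℂ (MvPowerSeries.C (s - b) * iot (MvPowerSeries.pderiv ℂ j k))) -
      ((LinearMap.mulLeft ℂ k ∘ₗ (MvPowerSeries.pderiv ℂ j).toLinearMap) ∘ₗ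
        exl (vv (r := r) c k s b) +
      LinearMap.mulLeft ℂ (MvPowerSeries.C (s - b + (r : ℂ) / 2) * MvPowerSeries.pderiv ℂ j k) ∘ₗ
        exl (vv c k s b))) :=
    ((((bd_exl _).comp (bd_mul _)).comp (bd_pd _)).add ((bd_exl _).comp (bd_mul _))).sub
      ((((bd_mul _).comp (bd_pd _)).comp (bd_exl _)).add ((bd_mul _).comp (bd_exl _)))
  have h3 := h2.zero (fun m => ?_) H
  · rw [LinearMap.sub_apply, LinearMap.add_apply, LinearMap.add_apply, LinearMap.comp_apply,
      LinearMap.comp_apply, LinearMap.comp_apply, LinearMap.comp_apply, LinearMap.comp_apply,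
      LinearMap.comp_apply, LinearMap.mulLeft_apply, LinearMap.mulLeft_apply,
      LinearMap.mulLeft_apply, LinearMap.mulLeft_apply, sub_eq_zero] at h3
    rw [map_add, ← mul_assoc, ← mul_assoc]
    exact h3
  · rw [LinearMap.sub_apply, LinearMap.add_apply, LinearMap.add_apply, LinearMap.comp_apply,
      LinearMap.comp_apply, LinearMap.comp_apply, LinearMap.comp_apply, LinearMap.comp_apply,
      LinearMap.comp_apply, LinearMap.mulLeft_apply, LinearMap.mulLeft_apply,
      LinearMap.mulLeft_apply, LinearMap.mulLeft_apply, sub_eq_zero, lam_mul hk hs0 hs1,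
      lam_mono hk]
    have e1 : ((MvPowerSeries.pderiv ℂ (Fin.castLE (by omega) j : Fin (r + 2))).toLinearMap
        (MvPowerSeries.monomial m (1 : ℂ)) : MvPowerSeries (Fin (r + 2)) ℂ) =
        (m (Fin.castLE (by omega) j) : ℂ) •
          MvPowerSeries.monomial (m - Finsupp.single (Fin.castLE (by omega) j) 1) (1 : ℂ) :=
      pd_monomial _ _
    have e2 : MvPowerSeries.C (s - b) * iot (MvPowerSeries.pderiv ℂ j k) *
        (MvPowerSeries.monomial m (1 : ℂ) : MvPowerSeries (Fin (r + 2)) ℂ) =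
        (s - b) • (iot (MvPowerSeries.pderiv ℂ j k) * MvPowerSeries.monomial m (1 : ℂ)) := by
      rw [MvPowerSeries.smul_eq_C_mul, mul_assoc]
    have e3 : (MvPowerSeries.pderiv ℂ j).toLinearMap (vv c k s b m) =
        MvPowerSeries.pderiv ℂ j (vv c k s b m) := rfl
    rw [e1, e2, map_smul, map_smul, lam_lin hk, lam_mono hk, lam_mono hk, e3]
    have g3 := gg_three hs0 hs1 (ax m) b
    unfold vv
    rw [ax_sub, ev_sub, ax_single', ev_single, tsub_zero, Derivation.map_smul,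
      Derivation.leibniz, Derivation.leibniz_pow, pd_monomial, ← ev_apply]
    set g := YG.LamAaux.gg s (ax m) b
    set g' := YG.LamAaux.gg s (ax m) (b + 1)
    set n := YG.LamAaux.dg (ax m) / 2 with hn
    have e4 : k * (n • (k ^ (n - 1))) = n • k ^ n := by
      rcases Nat.eq_zero_or_pos n with h | h
      · simp [h]
      · obtain ⟨n', hn'⟩ : ∃ n', n = n' + 1 := ⟨n - 1, by omega⟩
        rw [hn', Nat.add_sub_cancel, mul_smul_comm, pow_succ']
    simp only [MvPowerSeries.smul_eq_C_mul, smul_eq_mul, nsmul_eq_mul, map_mul, map_add] at e4 ⊢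
    have g4 := congrArg (MvPowerSeries.C : ℂ → P2) g3
    rw [map_mul, map_mul, map_add, map_add, map_natCast] at g4
    linear_combination (MvPowerSeries.C c * MvPowerSeries.pderiv ℂ j k * k ^ n *
      MvPowerSeries.monomial (ev m) (1 : ℂ)) * g4 - (MvPowerSeries.C c * MvPowerSeries.C g *
      MvPowerSeries.monomial (ev m) (1 : ℂ) * MvPowerSeries.pderiv ℂ j k) * e4

end

end LamX

open LamX

/-- `Λ_m(H) = c ∑_a g(a, m) H_a k^(|a|/2)`, `H = ∑_a H_a(u, y) x^a`, with the numbers `g` of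
`YG.exists_g` for `s = σ` (`g(a, m) = 0` if `|a|` is odd: by the third property, descending, or replace
`g` by its even part), `c = 1 / g(0, 1)`. The sum is finite in each degree, as `k` has no constant
term. The relation `2 (σ - m) g(a, m+1) = (2 (σ - m) + |a| + r) g(a, m)` follows from the two
relations of `exists_g` (for `a = 0`, `m = 0`: `g(0, 1) = (σ + r/2)/σ ≠ 0`); `mul` is the first
relation of `exists_g`, `derx` the second one, `dery` the last relation. -/
theorem exists_Lam (r : ℕ) {k : P2} (hk : MvPowerSeries.constantCoeff k = 0) {σ : ℂ}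
    (hs0 : ∀ m : ℕ, σ ≠ m) (hs1 : ∀ m : ℕ, σ + (r : ℂ) / 2 ≠ -(m : ℂ)) :
    ∃ Λ : ℕ → MvPowerSeries (Fin (r + 2)) ℂ →ₗ[ℂ] P2, IsLam k σ Λ := by
  have hs2 : ∀ m : ℕ, σ + (r : ℂ) / 2 ≠ -((m : ℂ) + 1) := by
    intro m h
    refine hs1 (m + 1) ?_
    rw [h]
    push_cast
    ring
  have g0 : YG.LamAaux.gg σ (0 : Fin r →₀ ℕ) 0 = 1 := by
    unfold YG.LamAaux.gg
    have h1 : YG.LamAaux.pp (0 : Fin r →₀ ℕ) = 1 := by
      unfold YG.LamAaux.pp
      exact Finset.prod_eq_one fun j _ => rfl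
    have h2 : YG.LamAaux.dg (0 : Fin r →₀ ℕ) = 0 := by
      unfold YG.LamAaux.dg
      exact Finset.sum_eq_zero fun j _ => rfl
    have h3 : YG.LamAaux.hh σ 0 = 1 := by
      unfold YG.LamAaux.hh
      rw [Finset.prod_range_zero]
    rw [h1, h2, h3]
    change 1 * YG.LamAaux.cc (σ + (r : ℂ) / 2) 0 * 1 = 1
    rw [YG.LamAaux.cc_zero]
    ring
  have d0 : YG.LamAaux.dg (0 : Fin r →₀ ℕ) = 0 := by
    unfold YG.LamAaux.dg
    exact Finset.sum_eq_zero fun j _ => rfl
  have g1 : YG.LamAaux.gg σ (0 : Fin r →₀ ℕ) 1 ≠ 0 := by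
    intro h
    have h1 := gg_three hs0 hs2 (0 : Fin r →₀ ℕ) 0
    rw [zero_add, h, g0, d0] at h1
    refine hs1 0 ?_
    push_cast at h1 ⊢
    linear_combination -h1
  refine ⟨fun m => exl (vv (YG.LamAaux.gg σ (0 : Fin r →₀ ℕ) 1)⁻¹ k σ m),
    fun m c H => lam_lin hk c H, fun m H => lam_mul hk hs0 hs2 H,
    fun m H i => lam_derx hk hs0 hs2 i H, fun m H j => lam_dery hk hs0 hs2 j H, ?_⟩
  have h1 := lam_mono hk (c := (YG.LamAaux.gg σ (0 : Fin r →₀ ℕ) 1)⁻¹) (s := σ) (b := 1)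
    (0 : Fin (r + 2) →₀ ℕ)
  have h2 : ax (0 : Fin (r + 2) →₀ ℕ) = 0 := by
    ext l
    rfl
  have h3 : LamX.ev (0 : Fin (r + 2) →₀ ℕ) = 0 := by
    ext l
    rfl
  refine h1.trans ?_
  unfold vv
  rw [h2, h3, d0, inv_mul_cancel₀ g1, one_smul, Nat.zero_div, pow_zero, one_mul]
  rfl

end YA

end MPb07157
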