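import Pool.Agent.Lib.MP_b07157_agYA.Core
import Pool.Agent.Lib.MP_b07157_agYM.Main
import Pool.Agent.Lib.MP_b07157_agYQ.Main3

/-!
# Tangent cones with double points: the main theorems without hypothesis outside the tangent cone
-/

noncomputable section

namespace MPb07157

open MvPolynomial

/-- **Surface germs with reduced tangent cones, double points**: `f = f_d + f_{d+e} + ⋯`, `f_d` is
squarefree, and each singular point `q` of the curve `f_d = 0` satisfies `f_{d+e}(q) ≠ 0`, or is a
node, or a double point if `d ≤ 6`; with the condition `C3` at `-3/d`, or log canonical threshold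
`3/d`. -/
theorem SmcLoc.of_tcA {f : MvPolynomial (Fin 3) ℂ} {d e : ℕ} (hd : 2 ≤ d) (he : 0 < e)
    (hf : YA.IsTC3 f d e) (hc : YQ.C3 (homogeneousComponent d f) d ∨ Lct.HasLct f (3 / (d : ℝ))) :
    SmcLoc f := by
  refine fun _ _ hp _ hb => YA.smc_tc3 (by omega) he hf (fun _ => ?_) hp hb
  have hF := homogeneousComponent_isHomogeneous d f
  rcases hc with (h | h | ⟨hNS, h⟩ | h) | h
  · exact Or.inl h
  · refine Or.inr (Or.inl ?_)
    have h5 := YH.hasLct_of_mult (n := 3) (by omega) (by omega) hf.low h
    push_cast at h5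
    exact h5
  · refine Or.inr (Or.inr ?_)
    have hNS' : NS (homogeneousComponent d f) := hNS.elim id fun h =>
      YN.ns_of_double h.1 hF hf.sqf.ne_zero h.2
    have h6 := YQ.nonEx_of_qh (t := 0) (d := d) (by omega) hF hf.sqf.ne_zero
      (SI.finite_lines (by omega) hF hf.sqf) (fun q hq hs => ?_) hNS'
    · simpa using h6
    rcases h q hq hs with ⟨h1, i, j, hij⟩ | h1
    · refine Or.inl (Or.inl ⟨by omega, ?_⟩)
      by_contra hcon
      have h2 : (YG.hessAt (homogeneousComponent d f) q).rank = 0 := by omega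
      exact hij (YQ.eq_zero_of_rank h2 i j)
    · exact Or.inr h1
  · exact Or.inr (Or.inr h)
  · exact Or.inr (Or.inl h)

/-- **Hypersurface germs in `n = t + 3 ≥ 4` variables whose tangent cone has nodes or points of corank
one**, `f` of multiplicity `d ≥ 3`. Assume that the log canonical threshold is `n/d`, or
`f_d^(-n/d)` is not a sum of derivatives, or: `n/d + m ≠ (n - 1)/2` for all `m ≥ 1`, unless `d = n` or
`d ≥ 2 n`, and all singular points are nodes, or all linear vector fields which kill `f_d` have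
divergence zero, unless `d = n`. -/
theorem SmcLoc.of_tcAN {t : ℕ} {f : MvPolynomial (Fin (t + 3)) ℂ} {d : ℕ} (hf : YA.IsTCN f d)
    (hc : (Lct.HasLct f (((t : ℝ) + 3) / d) ∨
        NonEx (homogeneousComponent d f) (((t : ℂ) + 3) / d)) ∨
      ((d = t + 3 ∨ 2 * (t + 3) ≤ d ∨ ∀ m : ℕ, 0 < m → 2 * (d * m + (t + 3)) ≠ (t + 2) * d) ∧
      (d = t + 3 ∨ YM.Nodal (homogeneousComponent d f) ∨ NS (homogeneousComponent d f)))) :
    SmcLoc f := by
  intro s₀ _ hp b hb
  rcases hc with hc | ⟨h1, h2⟩
  · exact YA.smc_tcN hf (fun _ => hc) hp hb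
  have hd := hf.hd
  have hF0 : homogeneousComponent d f ≠ 0 := by
    intro h0
    have h3 := hf.sing (fun _ => 1) (fun h => one_ne_zero (congrFun h 0)) (fun j => by
      rw [h0, map_zero, map_zero])
    have h4 : YG.hessAt (homogeneousComponent d f) (fun _ => (1 : ℂ)) = 0 := by
      ext i j
      show eval _ (pderiv i (pderiv j (homogeneousComponent d f))) = 0
      rw [h0, map_zero, map_zero, map_zero]
    rw [h4, Matrix.rank_zero] at h3
    omega
  have hf0 : f ≠ 0 := by
    rintro rfl
    exact hF0 (map_zero _)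
  have h00 : coeff 0 f = 0 := by
    have h1 := hf.low 0 (by omega)
    rw [homogeneousComponent_zero] at h1
    exact C_eq_zero.1 h1
  by_cases hs1 : s₀ = -1
  · subst hs1
    exact neg_one_root hf0 (by rwa [notMem_support_iff]) b hb
  have hcase : d = t + 3 → s₀ = -(((t : ℚ) + 3) / d) → s₀ = -1 := by
    intro h5 h6
    have h7 : ((t : ℚ) + 3) ≠ 0 := by positivity
    rw [h6, h5]
    push_cast
    rw [div_self h7]
  rcases h1 with h1 | h1 | h1
  · exact YA.smc_tcN hf (fun h => absurd (hcase h1 h) hs1) hp hb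
  · refine YA.smc_tcN hf (fun _ => Or.inl ?_) hp hb
    have h5 := YH.hasLct_of_mult (n := t + 3) (by omega) (by omega) hf.low
      (fun p hp => ⟨2, h1, YM.multLe_of_rank fun hs => by
        rcases hf.sing p hp hs with h | h <;> omega⟩)
    push_cast at h5
    exact h5
  rcases h2 with h2 | h2
  · exact YA.smc_tcN hf (fun h => absurd (hcase h2 h) hs1) hp hb
  have hNS : NS (homogeneousComponent d f) := h2.elim
    (fun h => YM.ns_of_nodal hf.ht hd (homogeneousComponent_isHomogeneous d f) h) id
  refine YA.smc_tcN hf (fun _ => Or.inr (YM.nonEx_of_corank (by omega)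
    (homogeneousComponent_isHomogeneous d f) hF0 hf.fin (fun q hq hs => ?_) hNS)) hp hb
  rcases hf.sing q hq hs with h | h
  · exact Or.inr ⟨h, h1⟩
  · exact Or.inl h

end MPb07157
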